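import Mathlib
import Pool.Agent.Lib.P0c8ca5O.Act
import Pool.Agent.Lib.P0c8ca5Q.RvB
import Pool.Agent.Lib.P0c8ca5N.WSum
import Pool.Agent.Lib.P0c8ca5V.TDefs

/-!
# The wreath product with a cyclic group of prime order `r ≠ p`: definitions

`WG r G = G ≀ C_r`, base group `bs r G`, `el r b = b ⊗ ⋯ ⊗ b` (P0c8ca5O.Defs).
* `fg r x = (x ^ r - x) / r + r * x`.
* `Wb p N e` (P0c8ca5Q.RvB): the functions of `XH p k N` fixed by `conv e`.
* `VR p N e`: those of `Wb p N e` that are invariant under conjugation by the whole group;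
  `VC p c e`: those of `Wb p ⊤ e` that vanish outside `{x | x.right = c}`.
* `cy x = (x ^ r).left 1`: the cycle product; `nf c h`: the element with cycle product `h`;
  `lf c F`: the function `F ∘ cy` on the coset of `c`.
* `dzN p c`: the number of blocks of defect zero below `c`; `dN p R c` the same for `N(R)/R` and the
  image of `c`; `nN R = |N(R)|`; `SW p c = ∑ R, nN R * dN p R c` over the p-subgroups `R`.
* `IsDi p z`: `z` is the sum of the blocks of defect zero.
-/

namespace Pool.Agent.Lib.P0c8ca5.Wr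

open MonoidAlgebra

set_option linter.unusedSectionVars false

/-- `(x ^ r - x) / r + r * x` -/
def fg (r x : ℕ) : ℕ := ff r x + (r - 1) * x

section spaces
variable {k : Type*} [Field k] {A : Type*} [Group A] [Fintype A]

/-- the functions of `Wb p N e` that are invariant under the whole group -/
def VR (p : ℕ) (N : Subgroup A) (e : MonoidAlgebra k A) : Submodule k (A → k) where
  carrier := {f | f ∈ Bq.RvBAux.Wb p N e ∧ ∀ a x, f (a⁻¹ * x * a) = f x}
  add_mem' := by
    rintro f g ⟨h1, h2⟩ ⟨h3, h4⟩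
    exact ⟨Submodule.add_mem _ h1 h3, fun a x => by
      rw [Pi.add_apply, Pi.add_apply, h2, h4]⟩
  zero_mem' := ⟨Submodule.zero_mem _, fun _ _ => rfl⟩
  smul_mem' := by
    rintro c f ⟨h1, h2⟩
    exact ⟨Submodule.smul_mem _ c h1, fun a x => by rw [Pi.smul_apply, Pi.smul_apply, h2]⟩

theorem mem_VR {p : ℕ} {N : Subgroup A} {e : MonoidAlgebra k A} {f : A → k} :
    f ∈ VR p N e ↔ (f ∈ XH p k N ∧ conv e f = f) ∧ ∀ a x, f (a⁻¹ * x * a) = f x := Iff.rfl

theorem mem_Wb {p : ℕ} {N : Subgroup A} {e : MonoidAlgebra k A} {f : A → k} :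
    f ∈ Bq.RvBAux.Wb p N e ↔ f ∈ XH p k N ∧ conv e f = f := Iff.rfl

end spaces

section wreath
variable {r : ℕ} {k : Type*} [Field k] {G : Type*} [Group G] [Fintype G] [Fintype (WG r G)]

/-- the functions of `Wb p ⊤ e` that vanish outside the coset of `c` -/
def VC (p : ℕ) (c : Cp r) (e : MonoidAlgebra k (WG r G)) : Submodule k (WG r G → k) where
  carrier := {f | f ∈ Bq.RvBAux.Wb p (⊤ : Subgroup (WG r G)) e ∧ ∀ x, x.right ≠ c → f x = 0}
  add_mem' := by
    rintro f g ⟨h1, h2⟩ ⟨h3, h4⟩
    exact ⟨Submodule.add_mem _ h1 h3, fun x hx => by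
      rw [Pi.add_apply, h2 x hx, h4 x hx, add_zero]⟩
  zero_mem' := ⟨Submodule.zero_mem _, fun _ _ => rfl⟩
  smul_mem' := by
    rintro c f ⟨h1, h2⟩
    exact ⟨Submodule.smul_mem _ c h1, fun x hx => by rw [Pi.smul_apply, h2 x hx, smul_zero]⟩

theorem mem_VC {p : ℕ} {c : Cp r} {e : MonoidAlgebra k (WG r G)} {f : WG r G → k} :
    f ∈ VC p c e ↔ (f ∈ XH p k (⊤ : Subgroup (WG r G)) ∧ conv e f = f) ∧
      ∀ x, x.right ≠ c → f x = 0 := Iff.rfl

end wreath

section cyc
variable {r : ℕ} {G : Type*} [Group G]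

/-- the cycle product -/
def cy (x : WG r G) : G := (x ^ r).left 1

/-- the element over `c` with cycle product `h` (for `c ≠ 1`) -/
def nf [Fact r.Prime] (c : Cp r) (h : G) : WG r G := ⟨Pi.mulSingle c h, c⟩

theorem nf_right [Fact r.Prime] (c : Cp r) (h : G) : (nf c h).right = c := rfl

open Classical in
/-- the function `F ∘ cy` on the coset of `c`, extended by zero -/
noncomputable def lf {k : Type*} [Field k] (c : Cp r) (F : G → k) : WG r G → k := fun x =>
  if x.right = c then F (cy x) else 0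

theorem lf_of {k : Type*} [Field k] {c : Cp r} {F : G → k} {x : WG r G} (h : x.right = c) :
    lf c F x = F (cy x) := if_pos h

theorem lf_not {k : Type*} [Field k] {c : Cp r} {F : G → k} {x : WG r G} (h : x.right ≠ c) :
    lf c F x = 0 := if_neg h

end cyc

section counts
variable {k : Type*} [Field k] {A : Type*} [Group A]

/-- the number of blocks of defect zero below `c` -/
noncomputable def dzN (p : ℕ) (c : MonoidAlgebra k A) : ℕ :=
  Nat.card {f : MonoidAlgebra k A | IsDZ p (⊤ : Subgroup A) f ∧ f * c = f}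

/-- the number of blocks of defect zero of `N(R)/R` below the image of `c` -/
noncomputable def dN [Fintype A] (p : ℕ) (R : Subgroup A) (c : MonoidAlgebra k A) : ℕ :=
  dzN p (proj R c)

/-- the order of the normalizer -/
noncomputable def nN (R : Subgroup A) : ℕ := Nat.card ↥(Subgroup.normalizer (R : Set A))

/-- the p-subgroups -/
noncomputable def Pg (p : ℕ) (A : Type*) [Group A] [Finite A] : Finset (Subgroup A) :=
  (Set.toFinite {R : Subgroup A | IsPGroup p R}).toFinset

theorem mem_Pg {p : ℕ} [Finite A] {R : Subgroup A} : R ∈ Pg p A ↔ IsPGroup p R := by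
  unfold Pg
  rw [Set.Finite.mem_toFinset]
  rfl

/-- the sum over all p-subgroups that counts the weights (times the order of the group) -/
noncomputable def SW [Fintype A] (p : ℕ) (c : MonoidAlgebra k A) : ℕ :=
  ∑ R ∈ Pg p A, nN R * dN p R c

/-- `z` is the sum of the blocks of defect zero -/
structure IsDi (p : ℕ) (z : MonoidAlgebra k A) : Prop where
  mem : z ∈ fixAlg k (⊤ : Subgroup A) ⊤
  idem : z * z = z
  dz : ∀ f : MonoidAlgebra k A, IsDZ p (⊤ : Subgroup A) f → f * z = f
  nz : ∀ f : MonoidAlgebra k A, IsBlock (⊤ : Subgroup A) f → ¬ IsDZ p (⊤ : Subgroup A) f →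
    f * z = 0

end counts

end Pool.Agent.Lib.P0c8ca5.Wr
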