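import Mathlib
import Pool.Agent.Lib.P0c8ca5A.Defs

/-!
# CyA (1.5 h): the cycle product

`(a * x).left q = a.left q * x.left (a.right⁻¹ * q)`.  For `x.right = c ≠ 1`: `(x ^ n).left q = x.left q * x.left (c⁻¹ q) * ⋯ * x.left (c^(-(n-1)) q)`; the powers `c ^ (-j)`, `0 ≤ j < r`, are all
the elements of `Cp r` (order of `c` is `r`: `orderOf_eq_prime`, `Nat.card`; the group has prime order: `zpowers c = ⊤`, `isCyclic_of_prime_card`, `mem_powers_of_prime_card` or
`mem_zpowers_of_prime_card`).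
PROOF.  `cy_pow`: `(x ^ n) ^ r = (x ^ r) ^ n`, and `x ^ r` is in the base group (`bs_pow`, `mem_bs`), where powers are componentwise.
`cy_conj`: `(a * x * a⁻¹) ^ r = a * x ^ r * a⁻¹` and its left component at `1` is conjugate to `(x ^ r).left (a.right⁻¹)`; `x` commutes with `x ^ r`, so
`(x ^ r).left q` and `(x ^ r).left (c⁻¹ q)` are conjugate (compare `(x * x ^ r).left q = (x ^ r * x).left q`), hence all the `(x ^ r).left q` are conjugate.
`cy_nf`: in the product for `(x ^ r).left 1`, `x = nf c h = ⟨Pi.mulSingle c h, c⟩`, only the factor `j = r - 1` (`c ^ (-j) = c`) is not `1`, and it is `h`.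
`nf_conj`: `a = ⟨fun _ => g, 1⟩`.  `exists_nf`: `a = ⟨g, 1⟩` with `g (c ^ (-j)) = (x ^ j).left 1` for `0 ≤ j < r`; then `(a * x * a⁻¹).left q = g q * x.left q * (g (c⁻¹ * q))⁻¹` is `1` for
`q = c ^ (-j)`, `j < r - 1` (because `(x ^ j).left 1 * x.left (c ^ (-j)) = (x ^ (j + 1)).left 1`), and `(x ^ r).left 1 = cy x` for `j = r - 1`, that is `q = c`.
`cy_prod`: the formula for `(x ^ n).left q` above, `n = r`, `q = 1`.
-/

namespace Pool.Agent.Lib.P0c8ca5.Wr

open MonoidAlgebra

set_option linter.unusedSectionVars false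

variable {r : ℕ} [Fact r.Prime] {G : Type*} [Group G]

namespace CyAAux

theorem right_pow {r : ℕ} {G : Type*} [Group G] (x : WG r G) (n : ℕ) :
    (x ^ n).right = x.right ^ n :=
  map_pow (RegularWreathProduct.rightHom : WG r G →* Cp r) x n

theorem left_mul {r : ℕ} {G : Type*} [Group G] (a x : WG r G) (q : Cp r) :
    (a * x).left q = a.left q * x.left (a.right⁻¹ * q) := rfl

theorem left_inv' {r : ℕ} {G : Type*} [Group G] (a : WG r G) (q : Cp r) :
    (a⁻¹).left q = (a.left (a.right * q))⁻¹ := rfl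

theorem left_pow {r : ℕ} {G : Type*} [Group G] (x : WG r G) (n : ℕ) (q : Cp r) :
    (x ^ n).left q = ((List.range n).map fun j => x.left ((x.right ^ j)⁻¹ * q)).prod := by
  induction n with
  | zero => rfl
  | succ n ih =>
    rw [pow_succ, left_mul, ih, List.range_succ, List.map_append, List.prod_append,
      List.map_singleton, List.prod_singleton, right_pow]

theorem pow_r {r : ℕ} {G : Type*} [Group G] (x : WG r G) : (x ^ r).right = 1 := mem_bs.1 (bs_pow x)

theorem base_pow {r : ℕ} {G : Type*} [Group G] {y : WG r G} (hy : y.right = 1) (n : ℕ)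
    (q : Cp r) : (y ^ n).left q = y.left q ^ n := by
  induction n with
  | zero => rw [pow_zero, pow_zero]; rfl
  | succ n ih =>
    rw [pow_succ, left_mul, ih, right_pow, hy, one_pow, inv_one, one_mul, pow_succ]

theorem card_cp : Nat.card (Cp r) = r := by
  change Nat.card (ZMod r) = r
  exact Nat.card_zmod r

theorem order_cp {c : Cp r} (hc : c ≠ 1) : orderOf c = r := by
  have h1 : c ^ r = 1 := by
    have h2 : r • (Multiplicative.toAdd c : ZMod r) = 0 := by
      rw [nsmul_eq_mul, CharP.cast_eq_zero, zero_mul]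
    exact h2
  exact orderOf_eq_prime h1 hc

theorem exists_pow {c : Cp r} (hc : c ≠ 1) (q : Cp r) : ∃ j, j < r ∧ (c ^ j)⁻¹ = q := by
  haveI : NeZero r := ⟨(Fact.out : r.Prime).ne_zero⟩
  haveI : Finite (Cp r) := inferInstanceAs (Finite (ZMod r))
  have h1 : q⁻¹ ∈ Subgroup.zpowers c := mem_zpowers_of_prime_card card_cp hc
  have h2 : q⁻¹ ∈ Submonoid.powers c := by
    rw [mem_powers_iff_mem_zpowers]
    exact h1
  obtain ⟨n, hn⟩ := h2
  refine ⟨n % r, Nat.mod_lt _ (Fact.out : r.Prime).pos, ?_⟩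
  have h3 : c ^ (n % r) = c ^ n := by
    have := pow_mod_orderOf c n
    rwa [order_cp hc] at this
  rw [h3]
  change c ^ n = q⁻¹ at hn
  rw [hn, inv_inv]

theorem pow_inj {c : Cp r} (hc : c ≠ 1) {i j : ℕ} (hi : i < r) (hj : j < r)
    (h : (c ^ i)⁻¹ = (c ^ j)⁻¹) : i = j := by
  have h1 : c ^ i = c ^ j := inv_injective h
  have h2 := pow_inj_mod.1 h1
  rw [order_cp hc, Nat.mod_eq_of_lt hi, Nat.mod_eq_of_lt hj] at h2
  exact h2

theorem conj_all {x : WG r G} (hx : x.right ≠ 1) (q : Cp r) :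
    ∃ g : G, (x ^ r).left q = g * cy x * g⁻¹ := by
  have h1 : ∀ n : ℕ, ∃ g : G, (x ^ r).left ((x.right ^ n)⁻¹) = g * cy x * g⁻¹ := by
    intro n
    induction n with
    | zero => exact ⟨1, by rw [pow_zero, inv_one, one_mul, inv_one, mul_one]; rfl⟩
    | succ n ih =>
      obtain ⟨g, hg⟩ := ih
      have h2 : (x * x ^ r).left ((x.right ^ n)⁻¹) = (x ^ r * x).left ((x.right ^ n)⁻¹) := by
        rw [(Commute.self_pow x r).eq]
      rw [left_mul, left_mul, pow_r, inv_one, one_mul, hg] at h2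
      have h3 : x.right⁻¹ * (x.right ^ n)⁻¹ = (x.right ^ (n + 1))⁻¹ := by
        rw [pow_succ, mul_inv_rev]
      rw [h3] at h2
      refine ⟨(x.left ((x.right ^ n)⁻¹))⁻¹ * g, ?_⟩
      have h4 : (x ^ r).left ((x.right ^ (n + 1))⁻¹) =
          (x.left ((x.right ^ n)⁻¹))⁻¹ * (g * cy x * g⁻¹ * x.left ((x.right ^ n)⁻¹)) := by
        rw [← h2, inv_mul_cancel_left]
      rw [h4]
      group
  obtain ⟨n, -, hn⟩ := exists_pow hx q
  obtain ⟨g, hg⟩ := h1 n
  exact ⟨g, by rw [← hn]; exact hg⟩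

end CyAAux

open CyAAux

theorem cy_pow (x : WG r G) (n : ℕ) : cy (x ^ n) = cy x ^ n := by
  unfold cy
  rw [← pow_mul, mul_comm, pow_mul]
  exact base_pow (pow_r x) n 1

/-- the cycle product as a product -/
theorem cy_prod (x : WG r G) :
    cy x = ((List.range r).map fun j => x.left ((x.right ^ j)⁻¹)).prod := by
  unfold cy
  rw [left_pow]
  simp only [mul_one]

theorem cy_conj {a x : WG r G} (hx : x.right ≠ 1) :
    ∃ g : G, cy (a * x * a⁻¹) = g * cy x * g⁻¹ := by
  obtain ⟨g, hg⟩ := conj_all hx (a.right⁻¹)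
  refine ⟨a.left 1 * g, ?_⟩
  have h1 : cy (a * x * a⁻¹) = a.left 1 * (x ^ r).left (a.right⁻¹) * (a.left 1)⁻¹ := by
    unfold cy
    rw [conj_pow, left_mul, left_mul, left_inv', RegularWreathProduct.mul_right, pow_r, mul_one,
      mul_one, mul_one, mul_inv_cancel]
  rw [h1, hg]
  group

theorem cy_nf {c : Cp r} (hc : c ≠ 1) (h : G) : cy (nf c h) = h := by
  rw [cy_prod]
  obtain ⟨s, hs⟩ : ∃ s, r = s + 1 := ⟨r - 1, by have := (Fact.out : r.Prime).pos; omega⟩
  have h1 : List.range r = List.range s ++ [s] := by rw [hs, List.range_succ]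
  rw [h1, List.map_append, List.prod_append, List.map_singleton, List.prod_singleton]
  have h2 : ((List.range s).map fun j => (nf c h).left (((nf c h).right ^ j)⁻¹)).prod = 1 := by
    apply List.prod_eq_one
    intro y hy
    rw [List.mem_map] at hy
    obtain ⟨j, hj, rfl⟩ := hy
    rw [List.mem_range] at hj
    change (Pi.mulSingle c h : Cp r → G) ((c ^ j)⁻¹) = 1
    apply Pi.mulSingle_eq_of_ne
    intro h3
    have h4 : c ^ (j + 1) = 1 := by
      rw [pow_succ]
      nth_rewrite 2 [← h3]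
      exact mul_inv_cancel _
    have h5 := orderOf_dvd_of_pow_eq_one h4
    rw [order_cp hc] at h5
    have h6 := Nat.le_of_dvd (Nat.succ_pos j) h5
    omega
  rw [h2, one_mul]
  change (Pi.mulSingle c h : Cp r → G) ((c ^ s)⁻¹) = h
  have h3 : (c ^ s)⁻¹ = c := by
    have h4 : c ^ (s + 1) = 1 := by
      rw [← hs]
      have := pow_orderOf_eq_one c
      rwa [order_cp hc] at this
    rw [pow_succ] at h4
    exact inv_eq_of_mul_eq_one_right h4
  rw [h3, Pi.mulSingle_eq_same]

theorem nf_conj (c : Cp r) (g h : G) : ∃ a : WG r G, nf c (g * h * g⁻¹) = a * nf c h * a⁻¹ := by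
  refine ⟨⟨fun _ => g, 1⟩, ?_⟩
  apply RegularWreathProduct.ext
  · funext q
    rw [left_mul, left_mul, left_inv']
    change (Pi.mulSingle c (g * h * g⁻¹) : Cp r → G) q =
      g * (Pi.mulSingle c h : Cp r → G) ((1 : Cp r)⁻¹ * q) * g⁻¹
    rw [inv_one, one_mul]
    by_cases hq : q = c
    · subst hq
      rw [Pi.mulSingle_eq_same, Pi.mulSingle_eq_same]
    · rw [Pi.mulSingle_eq_of_ne hq, Pi.mulSingle_eq_of_ne hq, mul_one, mul_inv_cancel]
  · rw [RegularWreathProduct.mul_right, RegularWreathProduct.mul_right,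
      RegularWreathProduct.inv_right]
    change c = 1 * c * (1 : Cp r)⁻¹
    rw [inv_one, one_mul, mul_one]

theorem exists_nf {x : WG r G} (hx : x.right ≠ 1) :
    ∃ a : WG r G, a * x * a⁻¹ = nf x.right (cy x) := by
  choose idx h1 h2 using exists_pow hx
  refine ⟨⟨fun q => (x ^ idx q).left 1, 1⟩, ?_⟩
  apply RegularWreathProduct.ext
  · funext q
    have key : (⟨fun q => (x ^ idx q).left 1, 1⟩ * x * (⟨fun q => (x ^ idx q).left 1, 1⟩ :
        WG r G)⁻¹ : WG r G).left q =
        (x ^ (idx q + 1)).left 1 * ((x ^ idx (x.right⁻¹ * q)).left 1)⁻¹ := by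
      rw [left_mul, left_mul, left_inv', pow_succ, left_mul, right_pow]
      change (x ^ idx q).left 1 * x.left ((1 : Cp r)⁻¹ * q) *
        ((x ^ idx (1 * ((1 * x.right)⁻¹ * q))).left 1)⁻¹ = _
      rw [inv_one, one_mul, one_mul, one_mul, mul_one, h2 q]
    rw [key]
    change _ = (Pi.mulSingle x.right (cy x) : Cp r → G) q
    have h3 : x.right⁻¹ * q = (x.right ^ (idx q + 1))⁻¹ := by
      rw [pow_succ, mul_inv_rev, h2 q]
    by_cases hj : idx q + 1 < r
    · have h4 : idx (x.right⁻¹ * q) = idx q + 1 :=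
        pow_inj hx (h1 _) hj (by rw [h2, h3])
      rw [h4, mul_inv_cancel]
      symm
      apply Pi.mulSingle_eq_of_ne
      intro h5
      rw [h5, inv_mul_cancel] at h3
      have h6 : x.right ^ (idx q + 1) = 1 := by
        rw [← h5] at h3 ⊢
        rw [← h5] at hx
        have := h3.symm
        rw [inv_eq_one] at this
        exact this
      have h7 := orderOf_dvd_of_pow_eq_one h6
      rw [order_cp hx] at h7
      have h8 := Nat.le_of_dvd (Nat.succ_pos _) h7
      omega
    · have h4 : idx q + 1 = r := by have := h1 q; omega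
      have h5 : x.right ^ r = 1 := by
        have := pow_orderOf_eq_one x.right
        rwa [order_cp hx] at this
      rw [h4, h5, inv_one] at h3
      have h6 : q = x.right := (inv_mul_eq_one.1 h3).symm
      have h7 : idx (x.right⁻¹ * q) = 0 :=
        pow_inj hx (h1 _) (Fact.out : r.Prime).pos (by rw [h2, h3, pow_zero, inv_one])
      rw [h4, h7, h6, Pi.mulSingle_eq_same]
      change cy x * (1 : G)⁻¹ = cy x
      rw [inv_one, mul_one]
  · rw [RegularWreathProduct.mul_right, RegularWreathProduct.mul_right,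
      RegularWreathProduct.inv_right]
    change 1 * x.right * (1 : Cp r)⁻¹ = x.right
    rw [inv_one, one_mul, mul_one]

end Pool.Agent.Lib.P0c8ca5.Wr
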