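import Mathlib
import Pool.Agent.Lib.P0c8ca5A.CyA
import Pool.Agent.Lib.P0c8ca5V.R2b

/-!
# CyB (1.5 h): convolution and the cycle product

PROOF.  `conv (el r b) f x = ∑ h, (el r b).coeff h * f (h * x)` (`coeff_el`, `tn_of`, `tn_not`): only `h` in the base group count, and then `(h * x).right = x.right`.  So both sides vanish if
`x.right ≠ c`.  Let `x.right = c`.  The elements of the base group are the `⟨h, 1⟩`, `h : Cp r → G`, and `(⟨h, 1⟩ * x).left q = h q * x.left q`, so by `cy_prod`
`cy (⟨h, 1⟩ * x) = ∏_(j < r) h (c ^ (-j)) * x.left (c ^ (-j))` (in this order).  Reindex the sum over `h : Cp r → G` by `h' : Fin r → G`, `h' j = h (c ^ (-j))` (`j ↦ (c ^ j)⁻¹` is a bijection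
`Fin r ≃ Cp r` since `c ≠ 1`).  CLAIM: for all `n`, `y : Fin n → G`, `v : G`:
`∑ (h : Fin n → G), (∏ j, b (h j)) * F (v * h 0 * y 0 * ⋯ * h (n-1) * y (n-1)) = ((conv b)^n F) (v * y 0 * ⋯ * y (n-1))`: move the sum over `h 0` to the outside,
(`Fin.consEquiv`, `Fin.prod_univ_succ`, `List`-products or `Fin.foldr`), induct with `v * h 0 * y 0` in place of `v`, and use
`∑ h, b h * F' (v * h * y) = ∑ h, b h * F' (h * v * y) = conv b F' (v * y)` (substitute `h = v⁻¹ * h' * v`, `b` is a class function: `mem_fixAlg`, `InvBy`).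
Finally `(conv b)^r F = conv b F` because `conv b (conv b F) = conv (b * b) F = conv b F` (`conv_conv` in P0c8ca5V.R2b, namespace as there; `r ≥ 1`).
-/

namespace Pool.Agent.Lib.P0c8ca5.Wr

open MonoidAlgebra

set_option linter.unusedSectionVars false

variable {r : ℕ} [Fact r.Prime] {k : Type*} [Field k] {G : Type*} [Group G] [Fintype G]
  [Fintype (WG r G)]

namespace CyBAux

theorem iter_conv {b : MonoidAlgebra k G} (hbb : b * b = b) (F : G → k) (n : ℕ) :
    (conv b)^[n + 1] F = conv b F := by
  induction n with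
  | zero => rfl
  | succ n ih =>
    rw [Function.iterate_succ_apply', ih, R2bAux.conv_conv, hbb]

theorem key {b : MonoidAlgebra k G} (hb : InvBy (⊤ : Subgroup G) b) (F : G → k) (n : ℕ) :
    ∀ (y : Fin n → G) (v : G),
    ∑ h : Fin n → G, (∏ j, b.coeff (h j)) * F (v * (List.ofFn fun j => h j * y j).prod)
      = (conv b)^[n] F (v * (List.ofFn y).prod) := by
  induction n with
  | zero =>
    intro y v
    rw [Fintype.sum_eq_single (fun i => i.elim0)]
    · simp
    · intro h hh
      exact absurd (Subsingleton.elim _ _) hh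
  | succ n ih =>
    intro y v
    rw [← (Fin.consEquiv (fun _ : Fin (n + 1) => G)).sum_comp, Fintype.sum_prod_type]
    have h1 : ∀ h0 : G, ∑ h' : Fin n → G,
        (∏ j, b.coeff ((Fin.consEquiv (fun _ : Fin (n + 1) => G)) (h0, h') j)) *
          F (v * (List.ofFn fun j => (Fin.consEquiv (fun _ : Fin (n + 1) => G)) (h0, h') j
            * y j).prod)
        = b.coeff h0 * (conv b)^[n] F (v * h0 * y 0 * (List.ofFn fun j => y j.succ).prod) := by
      intro h0
      rw [← ih (fun j => y j.succ) (v * h0 * y 0), Finset.mul_sum]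
      refine Finset.sum_congr rfl fun h' _ => ?_
      have e1 : ∀ j : Fin n, (Fin.consEquiv (fun _ : Fin (n + 1) => G)) (h0, h') j.succ = h' j :=
        fun j => by simp [Fin.consEquiv]
      have e0 : (Fin.consEquiv (fun _ : Fin (n + 1) => G)) (h0, h') 0 = h0 := by
        simp [Fin.consEquiv]
      rw [Fin.prod_univ_succ, List.ofFn_succ, List.prod_cons]
      simp only [e0, e1]
      rw [mul_assoc]
      congr 3
      simp only [mul_assoc]
    rw [Finset.sum_congr rfl (fun h0 _ => h1 h0), Function.iterate_succ_apply']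
    unfold conv
    rw [← Equiv.sum_comp (MulAut.conj v⁻¹).toEquiv]
    refine Finset.sum_congr rfl fun h _ => ?_
    have e2 : (MulAut.conj v⁻¹).toEquiv h = v⁻¹ * h * v⁻¹⁻¹ := rfl
    rw [e2, hb v⁻¹ (Subgroup.mem_top _), List.ofFn_succ, List.prod_cons]
    congr 2
    group

theorem cp_pow (c : Cp r) : c ^ r = 1 := by
  have h2 : r • (Multiplicative.toAdd c : ZMod r) = 0 := by
    rw [nsmul_eq_mul, CharP.cast_eq_zero, zero_mul]
  exact h2

theorem bij {c : Cp r} (hc : c ≠ 1) : Function.Bijective (fun j : Fin r => (c ^ (j : ℕ))⁻¹) := by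
  have ho : orderOf c = r := orderOf_eq_prime (cp_pow c) hc
  rw [Fintype.bijective_iff_injective_and_card]
  constructor
  · intro i j hij
    have h1 : c ^ (i : ℕ) = c ^ (j : ℕ) := inv_injective hij
    have h2 := pow_injOn_Iio_orderOf (x := c) (by rw [Set.mem_Iio, ho]; exact i.2)
      (by rw [Set.mem_Iio, ho]; exact j.2) h1
    exact Fin.ext h2
  · rw [Fintype.card_fin, Fintype.card_multiplicative, ZMod.card]

theorem ofFn_range {α : Type*} (f : ℕ → α) (n : ℕ) :
    (List.range n).map f = List.ofFn fun j : Fin n => f j := by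
  rw [List.ofFn_eq_map]
  rw [← List.map_coe_finRange_eq_range, List.map_map]
  rfl

end CyBAux

open CyBAux

theorem conv_cy {c : Cp r} (hc : c ≠ 1) {b : MonoidAlgebra k G}
    (hb : b ∈ fixAlg k (⊤ : Subgroup G) ⊤) (hbb : b * b = b) (F : G → k) :
    conv (el r b) (lf c F) = lf c (conv b F) := by
  classical
  have hinv : InvBy (⊤ : Subgroup G) b := (mem_fixAlg.1 hb).2
  funext x
  change ∑ w : WG r G, (el r b).coeff w * lf c F (w * x) = _
  by_cases hx : x.right = c
  · rw [lf_of hx]
    rw [← Fintype.sum_of_injective (fun h : Cp r → G => (⟨h, 1⟩ : WG r G))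
      (fun h h' e => congrArg RegularWreathProduct.left e)
      (fun h => (∏ q, b.coeff (h q)) * F (cy ((⟨h, 1⟩ : WG r G) * x)))
      (fun w => (el r b).coeff w * lf c F (w * x))]
    · set σ : Fin r ≃ Cp r := Equiv.ofBijective _ (bij hc) with hσ
      rw [← (σ.arrowCongr (Equiv.refl G)).sum_comp]
      have e1 : ∀ h' : Fin r → G, (∏ q, b.coeff ((σ.arrowCongr (Equiv.refl G)) h' q))
          = ∏ j, b.coeff (h' j) := by
        intro h'
        rw [← σ.prod_comp]
        refine Finset.prod_congr rfl fun j _ => ?_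
        simp [Equiv.arrowCongr]
      have e2 : ∀ h' : Fin r → G, cy ((⟨(σ.arrowCongr (Equiv.refl G)) h', 1⟩ : WG r G) * x)
          = (List.ofFn fun j : Fin r => h' j * x.left ((c ^ (j : ℕ))⁻¹)).prod := by
        intro h'
        rw [cy_prod, ofFn_range]
        congr 2
        funext j
        have er : ((⟨(σ.arrowCongr (Equiv.refl G)) h', 1⟩ : WG r G) * x).right = c := by
          rw [RegularWreathProduct.mul_right, one_mul, hx]
        rw [er, RegularWreathProduct.mul_left, Pi.mul_apply, inv_one, one_mul]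
        congr 1
        have es : (c ^ (j : ℕ))⁻¹ = σ j := rfl
        rw [es]
        simp [Equiv.arrowCongr]
      simp only [e1, e2]
      have h3 := key hinv F r (fun j : Fin r => x.left ((c ^ (j : ℕ))⁻¹)) 1
      simp only [one_mul] at h3
      rw [h3]
      obtain ⟨n, hn⟩ : ∃ n, r = n + 1 := ⟨r - 1, by
        have := (Fact.out : r.Prime).pos
        omega⟩
      have e4 : (conv b)^[r] F = conv b F := by
        conv_lhs => rw [hn]
        exact iter_conv hbb F n
      rw [e4, cy_prod, ofFn_range, hx]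
    · intro w hw
      have hw1 : w.right ≠ 1 := by
        intro h
        apply hw
        exact ⟨w.left, by rw [← h]⟩
      rw [coeff_el, tn_not hw1, zero_mul]
    · intro h
      rw [coeff_el, tn_of rfl, lf_of]
      rw [RegularWreathProduct.mul_right, one_mul, hx]
  · rw [lf_not hx]
    refine Finset.sum_eq_zero fun w _ => ?_
    by_cases hw : w.right = 1
    · rw [lf_not, mul_zero]
      rw [RegularWreathProduct.mul_right, hw, one_mul]
      exact hx
    · rw [coeff_el, tn_not hw, zero_mul]

end Pool.Agent.Lib.P0c8ca5.Wr
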