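import Mathlib
import Pool.Agent.Lib.P0c8ca5A.IrSr
import Pool.Agent.Lib.P0c8ca5A.CyA

/-!
# PrW (0.7 h): p-regular parts in the wreath product

PROOF.  Let `x = u * s`, `s = pr p x`, `u = x * s⁻¹` with `u ^ p ^ n = 1` (`exists_pow_mul_inv_pr`, P0c8ca5N.RegP).  `u.right ^ p ^ n = 1` and `u.right ^ r = 1` (`Cp r` has exponent `r`, see `bs_pow`
in P0c8ca5O.Defs), `p ^ n` and `r` are coprime, so `u.right = 1` and `x.right = s.right`.  `pel_right` is the same argument.
`pr_cy`: `pr p x = x ^ uexp p (WG r G)` by definition, so `cy (pr p x) = ((x ^ r) ^ uexp p (WG r G)).left 1 = (pr p (x ^ r)).left 1` (`pow_mul`, `mul_comm`), and `pr_left` (P0c8ca5A.IrSr, namespace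
`IrSrAux`) for `x ^ r`, which is in the base group (`bs_pow`, `mem_bs`).  `pow_uexp`: `pr_left` for the element `⟨fun _ => y, 1⟩` of the base group, whose powers are `⟨fun _ => y ^ n, 1⟩`.
-/

namespace Pool.Agent.Lib.P0c8ca5.Wr

open MonoidAlgebra

set_option linter.unusedSectionVars false

variable {p r : ℕ} [Fact p.Prime] [Fact r.Prime] {G : Type*} [Group G] [Finite G]

namespace PrWAux

theorem right_pow (x : WG r G) (n : ℕ) : (x ^ n).right = x.right ^ n :=
  map_pow (RegularWreathProduct.rightHom : WG r G →* Cp r) x n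

theorem cp_pow (c : Cp r) : c ^ r = 1 := by
  have h2 : r • (Multiplicative.toAdd c : ZMod r) = 0 := by
    rw [nsmul_eq_mul, CharP.cast_eq_zero, zero_mul]
  exact h2

theorem cp_eq_one (hpr : p ≠ r) {c : Cp r} {n : ℕ} (h : c ^ p ^ n = 1) : c = 1 := by
  have h1 : c ^ (Nat.gcd (p ^ n) r) = 1 := pow_gcd_eq_one.2 ⟨h, cp_pow c⟩
  have h2 : Nat.gcd (p ^ n) r = 1 :=
    Nat.Coprime.pow_left n ((Nat.coprime_primes Fact.out Fact.out).2 hpr)
  rwa [h2, pow_one] at h1

end PrWAux

open PrWAux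

theorem pel_right (hpr : p ≠ r) {x : WG r G} (hx : Pel p x) : x.right = 1 := by
  obtain ⟨n, hn⟩ := hx
  refine cp_eq_one hpr (n := n) ?_
  rw [← right_pow, hn]
  rfl

theorem pr_right_r (hpr : p ≠ r) (x : WG r G) : (pr p x).right = x.right := by
  have h1 : (x * (pr p x)⁻¹).right = 1 := pel_right hpr (exists_pow_mul_inv_pr (p := p) x)
  rw [RegularWreathProduct.mul_right, RegularWreathProduct.inv_right, mul_inv_eq_one] at h1
  exact h1.symm

theorem pr_cy (x : WG r G) : cy (pr p x) = pr p (cy x) := by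
  have h1 : (pr p x) ^ r = pr p (x ^ r) := by
    unfold pr
    rw [← pow_mul, ← pow_mul, mul_comm]
  unfold cy
  rw [h1, IrSrAux.pr_left (mem_bs.1 (bs_pow x))]

end Pool.Agent.Lib.P0c8ca5.Wr
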