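import Mathlib
import Pool.Agent.Lib.P0c8ca5A.CyB
import Pool.Agent.Lib.P0c8ca5A.PrW

/-!
# CyC (1.2 h): class functions on a coset and class functions of G

PROOF.  The map `L : F ↦ lf c F` is linear.  (1) `F ∈ Wb p ⊤ b` implies `lf c F ∈ VC p c (el r b)`: class function: for `x.right = c` `cy (a * x * a⁻¹)` is conjugate to `cy x`
(`cy_conj`), and conjugation keeps `x.right` (`conj_right`, P0c8ca5O.Act); `lf c F (pr p x) = F (pr p (cy x)) = F (cy x)` (`pr_right_r`, `pr_cy`); `conv_cy`.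
(2) `L` is injective: `lf c F (nf c h) = F h` (`cy_nf`, `nf_right`).  (3) onto `VC p c (el r b)`: for `f ∈ VC p c (el r b)` let `F h = f (nf c h)`.  `F` is a class function (`nf_conj`), `f = lf c F`
(`exists_nf`: `f x = f (nf c (cy x))` for `x.right = c`), `F (pr p h) = F h`: `f (nf c h) = f (pr p (nf c h)) = F (cy (pr p (nf c h))) = F (pr p h)` (the second step is `f = lf c F`).
`lf c (conv b F) = conv (el r b) (lf c F) = lf c F` gives `conv b F = F` by (2).
So `LinearEquiv.ofBijective` (or `LinearEquiv.finrank_eq` for an explicit equivalence).  `f (a * x * a⁻¹) = f x` for all `a` is the condition in `mem_XH` for `⊤`.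
-/

namespace Pool.Agent.Lib.P0c8ca5.Wr

open MonoidAlgebra

set_option linter.unusedSectionVars false

variable {p r : ℕ} [Fact p.Prime] [Fact r.Prime] {k : Type*} [Field k] [IsAlgClosed k] [CharP k p]
  {G : Type*} [Group G] [Fintype G] [Fintype (WG r G)]

namespace CyCAux

theorem conj_right' (a x : WG r G) : (a * x * a⁻¹).right = x.right := by
  have h := conj_right (p := r) a⁻¹ x
  rwa [inv_inv] at h

theorem lf_nf {c : Cp r} (hc : c ≠ 1) (F : G → k) (h : G) : lf c F (nf c h) = F h := by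
  rw [lf_of (nf_right c h), cy_nf hc]

theorem lf_mem (hpr : p ≠ r) {c : Cp r} (hc : c ≠ 1) {b : MonoidAlgebra k G}
    (hb : b ∈ fixAlg k (⊤ : Subgroup G) ⊤) (hbb : b * b = b) {F : G → k}
    (hF : F ∈ Bq.RvBAux.Wb p (⊤ : Subgroup G) b) : lf c F ∈ VC p c (el r b) := by
  obtain ⟨hX, hconv⟩ := mem_Wb.1 hF
  obtain ⟨-, hcl, hreg⟩ := mem_XH.1 hX
  refine mem_VC.2 ⟨⟨mem_XH.2 ⟨?_, ?_, ?_⟩, ?_⟩, fun x hx => lf_not hx⟩
  · intro x hx
    exact absurd (Subgroup.mem_top x) hx
  · intro a _ x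
    by_cases hx : x.right = c
    · rw [lf_of ((conj_right' a x).trans hx), lf_of hx]
      obtain ⟨g, hg⟩ := cy_conj (a := a) (x := x) (by rw [hx]; exact hc)
      rw [hg]
      exact hcl g (Subgroup.mem_top g) _
    · rw [lf_not (fun h => hx ((conj_right' a x).symm.trans h)), lf_not hx]
  · intro x _
    by_cases hx : x.right = c
    · rw [lf_of ((pr_right_r hpr x).trans hx), lf_of hx, pr_cy]
      exact hreg _ (Subgroup.mem_top _)
    · rw [lf_not (fun h => hx ((pr_right_r hpr x).symm.trans h)), lf_not hx]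
  · rw [conv_cy hc hb hbb, hconv]

theorem eq_lf {c : Cp r} (hc : c ≠ 1) {b : MonoidAlgebra k G} {f : WG r G → k}
    (hf : f ∈ VC p c (el r b)) : lf c (fun h => f (nf c h)) = f := by
  obtain ⟨⟨hX, -⟩, hv⟩ := mem_VC.1 hf
  obtain ⟨-, hcl, -⟩ := mem_XH.1 hX
  funext x
  by_cases hx : x.right = c
  · rw [lf_of hx]
    obtain ⟨a, ha⟩ := exists_nf (x := x) (by rw [hx]; exact hc)
    rw [hx] at ha
    rw [← ha]
    exact hcl a (Subgroup.mem_top a) x
  · rw [lf_not hx, hv x hx]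

theorem nf_mem (hpr : p ≠ r) {c : Cp r} (hc : c ≠ 1) {b : MonoidAlgebra k G}
    (hb : b ∈ fixAlg k (⊤ : Subgroup G) ⊤) (hbb : b * b = b) {f : WG r G → k}
    (hf : f ∈ VC p c (el r b)) :
    (fun h => f (nf c h)) ∈ Bq.RvBAux.Wb p (⊤ : Subgroup G) b := by
  have hL := eq_lf hc hf
  obtain ⟨⟨hX, hconv⟩, hv⟩ := mem_VC.1 hf
  obtain ⟨-, hcl, hreg⟩ := mem_XH.1 hX
  refine mem_Wb.2 ⟨mem_XH.2 ⟨?_, ?_, ?_⟩, ?_⟩
  · intro x hx
    exact absurd (Subgroup.mem_top x) hx
  · intro g _ h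
    obtain ⟨a, ha⟩ := nf_conj c g h
    change f (nf c (g * h * g⁻¹)) = f (nf c h)
    rw [ha]
    exact hcl a (Subgroup.mem_top a) _
  · intro h _
    change f (nf c (pr p h)) = f (nf c h)
    have h1 : f (pr p (nf c h)) = f (nf c h) := hreg _ (Subgroup.mem_top _)
    rw [← h1]
    have h2 : lf c (fun h => f (nf c h)) (pr p (nf c h)) = f (nf c (pr p h)) := by
      rw [lf_of ((pr_right_r hpr _).trans (nf_right c h)), pr_cy, cy_nf hc]
    rw [← h2, hL]
  · funext h
    have h1 := conv_cy hc hb hbb (fun h => f (nf c h))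
    rw [hL, hconv] at h1
    have h2 := congrFun h1 (nf c h)
    rw [lf_nf hc] at h2
    exact h2.symm

theorem lf_add (c : Cp r) (F F' : G → k) : lf c (F + F') = lf c F + lf c F' := by
  funext x
  rw [Pi.add_apply]
  by_cases hx : x.right = c
  · rw [lf_of hx, lf_of hx, lf_of hx, Pi.add_apply]
  · rw [lf_not hx, lf_not hx, lf_not hx, add_zero]

theorem lf_smul (c : Cp r) (t : k) (F : G → k) : lf c (t • F) = t • lf c F := by
  funext x
  rw [Pi.smul_apply]
  by_cases hx : x.right = c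
  · rw [lf_of hx, lf_of hx, Pi.smul_apply]
  · rw [lf_not hx, lf_not hx, smul_zero]

end CyCAux

theorem finrank_VC (hpr : p ≠ r) {c : Cp r} (hc : c ≠ 1) {b : MonoidAlgebra k G}
    (hb : b ∈ fixAlg k (⊤ : Subgroup G) ⊤) (hbb : b * b = b) :
    Module.finrank k ↥(VC p c (el r b))
      = Module.finrank k ↥(Bq.RvBAux.Wb p (⊤ : Subgroup G) b) := by
  symm
  refine LinearEquiv.finrank_eq (R := k)
    { toFun := fun F => ⟨lf c F.1, CyCAux.lf_mem hpr hc hb hbb F.2⟩
      map_add' := fun F F' => Subtype.ext (CyCAux.lf_add c F.1 F'.1)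
      map_smul' := fun t F => Subtype.ext (CyCAux.lf_smul c t F.1)
      invFun := fun f => ⟨fun h => f.1 (nf c h), CyCAux.nf_mem hpr hc hb hbb f.2⟩
      left_inv := fun F => Subtype.ext (funext fun h => CyCAux.lf_nf hc F.1 h)
      right_inv := fun f => Subtype.ext (CyCAux.eq_lf hc f.2) }

end Pool.Agent.Lib.P0c8ca5.Wr
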