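import Mathlib
import Pool.Agent.Lib.P0c8ca5A.Defs
import Pool.Agent.Lib.P0c8ca5.Act

/-!
# DNc (0.8 h): invariance under conjugation

PROOF.  `nN_cg`: `normalizer (cg a R) = cg a (normalizer R)` (`cg_normalizer`), conjugate subgroups have the same order.  `dN_cg`: by definition the number of `f` with `IsDZ p ⊤ f ∧ f * proj R e = f`.
`sec ⊤ R = ⊤` (`YTwAux.sec_top` in P0c8ca5O.YTw, or from `mem_sec`, `qm_surj`); `conj_DZ` (used in `YT_smul`, P0c8ca5.Act; with `G = ⊤`) maps the set for `R` to the set for `cg a R` and is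
injective (the coefficients are transported: `φ'.coeff (qm (a * x * a⁻¹)) = φ.coeff (qm x)`), and `a⁻¹` gives the inverse; or show `≤` for all `a`, `R` by injectivity, and apply it to `a⁻¹`, `cg a R`
(the sets are finite: `finite_isBlock`).  `cj a e = e` for invariant `e` (`invBy_iff_cj`).
-/

namespace Pool.Agent.Lib.P0c8ca5.Wr

open MonoidAlgebra

set_option linter.unusedSectionVars false

variable {p : ℕ} [Fact p.Prime] {k : Type*} [Field k] [IsAlgClosed k] [CharP k p] {A : Type*}
  [Group A] [Fintype A]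

theorem nN_cg (a : A) (R : Subgroup A) : nN (cg a R) = nN R := by
  rw [nN, ← cg_normalizer, card_cg]
  rfl

theorem dN_cg {e : MonoidAlgebra k A} (he : InvBy ⊤ e) (a : A) (R : Subgroup A) :
    dN p (cg a R) e = dN p R e := by
  have hsec : ∀ R : Subgroup A, sec (⊤ : Subgroup A) R = ⊤ := by
    intro R
    rw [eq_top_iff]
    intro w _
    obtain ⟨x, hx, rfl⟩ := qm_surj w
    exact qm_mem_sec _ (Subgroup.mem_top x)
  have h1 := card_cg_eq (p := p) (H := (⊤ : Subgroup A)) (Q := R) (e := e)
    (fun _ _ => Subgroup.mem_top _) he (Subgroup.mem_top a)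
  rw [hsec, hsec] at h1
  exact h1

end Pool.Agent.Lib.P0c8ca5.Wr
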