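import Mathlib
import Pool.Agent.Lib.P0c8ca5A.Defs

/-!
# DzI (0.6 h): blocks of defect zero and isomorphisms

PROOF.  `f ↦ tr φ f` is a bijection from `{f | IsDZ p ⊤ f ∧ f * c = f}` to `{f | IsDZ p ⊤ f ∧ f * tr φ c = f}` with inverse `tr φ.symm` (`tr_isDZ`, `tr_mul`, `tr_symm_tr`, `tr_tr_symm` in
P0c8ca5.Transport; everything is supported in `⊤`).  `Nat.card_congr`.
-/

namespace Pool.Agent.Lib.P0c8ca5.Wr

open MonoidAlgebra

set_option linter.unusedSectionVars false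

variable {p : ℕ} [Fact p.Prime] {k : Type*} [Field k] [IsAlgClosed k] [CharP k p]
  {A₁ A₂ : Type*} [Group A₁] [Group A₂] [Finite A₁] [Finite A₂]

theorem dzN_tr (φ : ↥(⊤ : Subgroup A₁) ≃* ↥(⊤ : Subgroup A₂)) (c : MonoidAlgebra k A₁) :
    dzN p (tr φ c) = dzN p c := by
  have hs₁ : ∀ a : MonoidAlgebra k A₁, SuppIn (⊤ : Subgroup A₁) a := fun _ _ _ => Subgroup.mem_top _
  have hs₂ : ∀ a : MonoidAlgebra k A₂, SuppIn (⊤ : Subgroup A₂) a := fun _ _ _ => Subgroup.mem_top _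
  unfold dzN
  refine Nat.card_congr ⟨fun f => ⟨tr φ.symm f.1, tr_isDZ φ.symm f.2.1, ?_⟩,
    fun f => ⟨tr φ f.1, tr_isDZ φ f.2.1, ?_⟩, ?_, ?_⟩
  · calc tr φ.symm f.1 * c = tr φ.symm f.1 * tr φ.symm (tr φ c) := by rw [tr_symm_tr φ (hs₁ c)]
      _ = tr φ.symm (f.1 * tr φ c) := (tr_mul φ.symm (hs₂ _) (hs₂ _)).symm
      _ = tr φ.symm f.1 := by rw [f.2.2]
  · rw [← tr_mul φ (hs₁ _) (hs₁ _), f.2.2]
  · intro f
    exact Subtype.ext (tr_tr_symm φ (hs₂ f.1))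
  · intro f
    exact Subtype.ext (tr_symm_tr φ (hs₁ f.1))

end Pool.Agent.Lib.P0c8ca5.Wr
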