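import Mathlib
import Pool.Agent.Lib.P0c8ca5A.Defs
import Pool.Agent.Lib.P0c8ca5N.ChD

/-!
# DimR (1.2 h): dimensions of spaces of class functions

PROOF.  `Wb p N e` is the span of `Ich N e`, which is linearly independent: see `finrank_Rs` in P0c8ca5Q.RvB (there `hspan`, `hW`; `Sb N e` is `Ich N e` up to an obvious equivalence).
`finrank_Wb` follows.  `lN_eq`: `card_irr_inv` (P0c8ca5N.ChD) with `N = X = ⊤`; the invariance is automatic (`chi_conj_mem` in P0c8ca5N.ChA).  `lN_bot`: `card_irr_inv` with `X = ⊤` and `X = ⊥`.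
`finrank_VR`: the span gives a linear equivalence `(↥(Ich N e) → k) ≃ Wb p N e`, `c ↦ ∑ c χ • χ`; `A` permutes `Ich N e` by `(a χ) x = χ (a⁻¹ * x * a)` (`IrrCh_conj` in P0c8ca5N.ChA with
`g = a⁻¹`, and `conv e (a χ) = a (conv e χ)` because `e` is invariant); `∑ c χ • χ` is invariant iff `c` is constant on the classes of `chSet N e` (linear independence).  So
`VR p N e ≃ (Quotient (chSet N e) → k)`, and `Module.finrank_fintype_fun_eq_card` (finiteness of `Ich N e`: `Set.Finite.subset (Set.toFinite (IrrCh k N))`).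
-/

namespace Pool.Agent.Lib.P0c8ca5.Wr

open MonoidAlgebra

set_option linter.unusedSectionVars false

variable {p : ℕ} [Fact p.Prime] {k : Type*} [Field k] [IsAlgClosed k] [CharP k p] {A : Type*}
  [Group A] [Fintype A]

namespace DimRAux

/-- the characters in `Ich N e` are linearly independent -/
theorem liI (N : Subgroup A) (e : MonoidAlgebra k A) :
    LinearIndependent k (fun χ : ↥(Ich N e) => (χ.1 : A → k)) :=
  (chi_linearIndependent (k := k) N).comp
    (fun χ : ↥(Ich N e) => (⟨χ.1, χ.2.1⟩ : ↥(IrrCh k N)))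
    (fun _ _ h => Subtype.ext (congrArg (fun z : ↥(IrrCh k N) => (z : A → k)) h))

theorem finI (N : Subgroup A) (e : MonoidAlgebra k A) : Finite ↥(Ich N e) :=
  (liI N e).finite_of_isNoetherian

theorem span_I {N : Subgroup A} {e : MonoidAlgebra k A} (hs : SuppIn N e) (hi : InvBy N e)
    (hee : e * e = e) :
    Submodule.span k (Set.range (fun χ : ↥(Ich N e) => (χ.1 : A → k))) = Bq.RvBAux.Wb p N e := by
  apply le_antisymm
  · rw [Submodule.span_le]
    rintro f ⟨χ, rfl⟩
    obtain ⟨g, ⟨n, ρ, hρ, rfl⟩, h⟩ := χ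
    exact ⟨chi_mem_XH ρ, h⟩
  · rintro f ⟨hf, hfb⟩
    rw [← hfb]
    have hgen : ∀ g ∈ Submodule.span k (IrrCh k N), conv e g ∈
        Submodule.span k (Set.range (fun χ : ↥(Ich N e) => (χ.1 : A → k))) := by
      intro g hg
      induction hg using Submodule.span_induction with
      | mem χ hχ =>
        by_cases h : conv e χ = χ
        · rw [h]
          exact Submodule.subset_span ⟨⟨χ, hχ, h⟩, rfl⟩
        · rw [conv_eq_zero_of_ne hs hi hee ⟨χ, hχ⟩ h]
          exact Submodule.zero_mem _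
      | zero => rw [Bq.RvBAux.conv_zero]; exact Submodule.zero_mem _
      | add f g _ _ h1 h2 => rw [Bq.RvBAux.conv_add]; exact Submodule.add_mem _ h1 h2
      | smul c f _ h => rw [Bq.RvBAux.conv_smul]; exact Submodule.smul_mem _ c h
    apply hgen
    rw [span_IrrCh (p := p) N]
    exact hf

/-- conjugation commutes with the convolution by an invariant element -/
theorem conv_cj {e : MonoidAlgebra k A} (hinv : InvBy ⊤ e) (a : A) (f : A → k) (x : A) :
    conv e (fun y => f (a⁻¹ * y * a)) x = conv e f (a⁻¹ * x * a) := by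
  unfold conv
  refine Fintype.sum_equiv ((MulAut.conj a⁻¹).toEquiv) _ _ fun h => ?_
  have e1 : (MulAut.conj a⁻¹).toEquiv h = a⁻¹ * h * a := by
    change a⁻¹ * h * a⁻¹⁻¹ = _
    rw [inv_inv]
  rw [e1]
  have e2 : e.coeff (a⁻¹ * h * a) = e.coeff h := by
    have := hinv a⁻¹ (Subgroup.mem_top _) h
    rw [inv_inv] at this
    exact this
  rw [e2]
  congr 2
  group

/-- the conjugate of a character of `Ich N e` -/
def cjI {N : Subgroup A} [hN : N.Normal] {e : MonoidAlgebra k A} (hinv : InvBy ⊤ e) (a : A)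
    (χ : ↥(Ich N e)) : ↥(Ich N e) :=
  ⟨fun x => χ.1 (a⁻¹ * x * a), by
    constructor
    · have h1 : a⁻¹ ∈ Subgroup.normalizer (N : Set A) := by
        rw [Subgroup.normalizer_eq_top_iff.2 hN]
        exact Subgroup.mem_top _
      have h2 := IrrCh_conj h1 χ.2.1
      rw [inv_inv] at h2
      exact h2
    · funext x
      rw [conv_cj hinv, χ.2.2]⟩

theorem cjI_apply {N : Subgroup A} [N.Normal] {e : MonoidAlgebra k A} (hinv : InvBy ⊤ e) (a : A)
    (χ : ↥(Ich N e)) (x : A) : (cjI hinv a χ).1 x = χ.1 (a⁻¹ * x * a) := rfl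

/-- conjugation as a permutation of `Ich N e` -/
def cjE {N : Subgroup A} [N.Normal] {e : MonoidAlgebra k A} (hinv : InvBy ⊤ e) (a : A) :
    ↥(Ich N e) ≃ ↥(Ich N e) where
  toFun := cjI hinv a
  invFun := cjI hinv a⁻¹
  left_inv χ := by
    apply Subtype.ext
    funext x
    rw [cjI_apply, cjI_apply]
    group
  right_inv χ := by
    apply Subtype.ext
    funext x
    rw [cjI_apply, cjI_apply]
    group

theorem cjE_apply {N : Subgroup A} [N.Normal] {e : MonoidAlgebra k A} (hinv : InvBy ⊤ e) (a : A)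
    (χ : ↥(Ich N e)) (x : A) : (cjE hinv a χ).1 x = χ.1 (a⁻¹ * x * a) := rfl

theorem cjE_symm_apply {N : Subgroup A} [N.Normal] {e : MonoidAlgebra k A} (hinv : InvBy ⊤ e)
    (a : A) (χ : ↥(Ich N e)) (x : A) : ((cjE hinv a).symm χ).1 x = χ.1 (a * x * a⁻¹) := by
  change χ.1 (a⁻¹⁻¹ * x * a⁻¹) = _
  rw [inv_inv]

/-- the linear map from the functions on the classes of characters -/
noncomputable def Psi (N : Subgroup A) (e : MonoidAlgebra k A) [Fintype ↥(Ich N e)] :
    (Quotient (chSet N e) → k) →ₗ[k] (A → k) :=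
  (Fintype.linearCombination k (fun χ : ↥(Ich N e) => (χ.1 : A → k))).comp
    (LinearMap.funLeft k k (Quotient.mk (chSet N e)))

theorem Psi_apply (N : Subgroup A) (e : MonoidAlgebra k A) [Fintype ↥(Ich N e)]
    (g : Quotient (chSet N e) → k) :
    Psi N e g = ∑ χ : ↥(Ich N e), g (Quotient.mk _ χ) • (χ.1 : A → k) := by
  unfold Psi
  rw [LinearMap.comp_apply, Fintype.linearCombination_apply]
  rfl

theorem Psi_injective (N : Subgroup A) (e : MonoidAlgebra k A) [Fintype ↥(Ich N e)] :
    Function.Injective (Psi N e) := by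
  unfold Psi
  rw [LinearMap.coe_comp]
  refine Function.Injective.comp ?_ ?_
  · exact (liI N e).fintypeLinearCombination_injective
  · exact LinearMap.funLeft_injective_of_surjective k k _ Quotient.mk_surjective

theorem range_Psi {N : Subgroup A} [N.Normal] {e : MonoidAlgebra k A} (he : SuppIn N e)
    (hinv : InvBy ⊤ e) (hee : e * e = e) [Fintype ↥(Ich N e)] :
    LinearMap.range (Psi N e) = VR p N e := by
  have hi : InvBy N e := fun g _ x => hinv g (Subgroup.mem_top _) x
  have hspan := span_I (p := p) he hi hee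
  apply le_antisymm
  · rintro f ⟨g, rfl⟩
    rw [Psi_apply]
    refine ⟨?_, ?_⟩
    · rw [← hspan]
      exact Submodule.sum_mem _ fun χ _ =>
        Submodule.smul_mem _ _ (Submodule.subset_span ⟨χ, rfl⟩)
    · intro a x
      rw [Finset.sum_apply, Finset.sum_apply]
      refine Fintype.sum_equiv (cjE hinv a) _ _ fun χ => ?_
      rw [Pi.smul_apply, Pi.smul_apply, cjE_apply]
      have h1 : (Quotient.mk (chSet N e) (cjE hinv a χ)) = Quotient.mk (chSet N e) χ :=
        (Quotient.sound (s := chSet N e) (show (chSet N e).r χ (cjE hinv a χ) from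
          ⟨a, fun x => cjE_apply hinv a χ x⟩)).symm
      rw [h1]
  · rintro f ⟨hf, hfi⟩
    rw [← hspan, Submodule.mem_span_range_iff_exists_fun] at hf
    obtain ⟨c, hc⟩ := hf
    have hcc : ∀ a : A, ∀ χ : ↥(Ich N e), c (cjE hinv a χ) = c χ := by
      intro a
      have h1 : ∑ χ : ↥(Ich N e), c χ • (χ.1 : A → k)
          = ∑ χ : ↥(Ich N e), c (cjE hinv a χ) • (χ.1 : A → k) := by
        funext x
        have h2 : (∑ χ : ↥(Ich N e), c χ • (χ.1 : A → k)) x
            = (∑ χ : ↥(Ich N e), c χ • (χ.1 : A → k)) (a * x * a⁻¹) := by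
          rw [hc]
          have := hfi a (a * x * a⁻¹)
          rw [← this]
          congr 1
          group
        rw [h2, Finset.sum_apply, Finset.sum_apply]
        refine Fintype.sum_equiv (cjE hinv a).symm _ _ fun χ => ?_
        rw [Pi.smul_apply, Pi.smul_apply, cjE_symm_apply, Equiv.apply_symm_apply]
      have h3 := (liI N e).fintypeLinearCombination_injective
      have h4 : Fintype.linearCombination k (fun χ : ↥(Ich N e) => (χ.1 : A → k)) c
          = Fintype.linearCombination k (fun χ : ↥(Ich N e) => (χ.1 : A → k))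
            (fun χ => c (cjE hinv a χ)) := by
        rw [Fintype.linearCombination_apply, Fintype.linearCombination_apply]
        exact h1
      intro χ
      exact (congrFun (h3 h4) χ).symm
    refine ⟨Quotient.lift c ?_, ?_⟩
    · rintro χ ψ ⟨a, h⟩
      have h5 : ψ = cjE hinv a χ := Subtype.ext (funext fun x => by rw [h, cjE_apply])
      rw [h5, hcc]
    · rw [Psi_apply, ← hc]
      rfl

end DimRAux

theorem finrank_Wb {N : Subgroup A} {e : MonoidAlgebra k A} (he : e ∈ fixAlg k N N)
    (hee : e * e = e) :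
    Module.finrank k ↥(Bq.RvBAux.Wb p N e) = Nat.card ↥(Ich N e) := by
  obtain ⟨hs, hi⟩ := mem_fixAlg.1 he
  rw [← DimRAux.span_I (p := p) hs hi hee]
  exact Module.finrank_eq_nat_card_basis (Module.Basis.span (DimRAux.liI N e))

theorem lN_bot {e : MonoidAlgebra k A} (he : e ∈ fixAlg k (⊤ : Subgroup A) ⊤) (hee : e * e = e) :
    lN e = Nat.card (Quotient (irrInvSetoid (⊤ : Subgroup A) ⊥ e)) := by
  obtain ⟨hs, hi⟩ := mem_fixAlg.1 he
  have h1 := card_irr_inv (k := k) (N := (⊤ : Subgroup A)) (X := ⊤)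
    (by rw [Subgroup.normalizer_eq_top_iff.2 inferInstance]) hs hi hee
  have h2 := card_irr_inv (k := k) (N := (⊤ : Subgroup A)) (X := ⊥) bot_le hs hi hee
  unfold lN
  rw [h1, h2]
  refine Nat.card_congr (Equiv.subtypeEquivRight fun χ => ?_)
  constructor
  · exact fun h => ⟨h.1, fun g _ x => h.2 g (Subgroup.mem_top _) x⟩
  · refine fun h => ⟨h.1, fun g _ x => ?_⟩
    obtain ⟨g', n, ρ, hρ, rfl⟩ := χ
    exact chi_conj_mem ρ (Subgroup.mem_top _) x

theorem lN_eq {e : MonoidAlgebra k A} (he : e ∈ fixAlg k (⊤ : Subgroup A) ⊤) (hee : e * e = e) :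
    lN e = Module.finrank k ↥(Bq.RvBAux.Wb p (⊤ : Subgroup A) e) := by
  obtain ⟨hs, hi⟩ := mem_fixAlg.1 he
  rw [finrank_Wb he hee, lN_bot he hee,
    card_irr_inv (k := k) (N := (⊤ : Subgroup A)) (X := ⊥) bot_le hs hi hee]
  refine Nat.card_congr
    { toFun := fun χ => ⟨χ.1.1, χ.1.2, χ.2.1⟩
      invFun := fun χ => ⟨⟨χ.1, χ.2.1⟩, χ.2.2, fun g hg x => by
        rw [Subgroup.mem_bot] at hg
        rw [hg, one_mul, inv_one, mul_one]⟩
      left_inv := fun χ => rfl
      right_inv := fun χ => rfl }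

theorem finrank_VR {N : Subgroup A} [N.Normal] {e : MonoidAlgebra k A} (he : SuppIn N e)
    (hinv : InvBy ⊤ e) (hee : e * e = e) :
    Module.finrank k ↥(VR p N e) = Nat.card (Quotient (chSet N e)) := by
  have hfin : Finite ↥(Ich N e) := DimRAux.finI N e
  have hF : Fintype ↥(Ich N e) := Fintype.ofFinite _
  have hFq : Fintype (Quotient (chSet N e)) := Fintype.ofFinite _
  rw [← DimRAux.range_Psi (p := p) he hinv hee,
    LinearMap.finrank_range_of_inj (DimRAux.Psi_injective N e),
    Module.finrank_fintype_fun_eq_card, Nat.card_eq_fintype_card]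

end Pool.Agent.Lib.P0c8ca5.Wr
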