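import Mathlib
import Pool.Agent.Lib.P0c8ca5A.Defs
import Pool.Agent.Lib.P0c8ca5V.THpB

/-!
# DzA (1 h): the sum of the blocks of defect zero

PROOF.  Let `h = hpe p k A` (the sum of the p-elements; `hpe_mem` in P0c8ca5V.THpA: `h ∈ fixAlg k ⊤ ⊤`, it is central).  For a block `f`: `(h * f) ^ n = h ^ n * f` for `n ≥ 1`
(`f` is a central idempotent).  If `f` has defect zero, `h * f = f` (`hpe_mul_dz`), so `h ^ n * f = f`.  Otherwise `h * f` is nilpotent (`hpe_nonDZ`, P0c8ca5V.THpB).  There are finitely many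
blocks (`finite_isBlock`), so there is `n₀ ≥ 1` with `h ^ n * f = 0` for all `n ≥ n₀` and all blocks `f` not of defect zero.  `1 = ∑ f` over all blocks (`sum_blocks`, P0c8ca5N.WSum, namespace
`WSumAux`, with `c = 1`), so for `n ≥ n₀` `z = h ^ n` is `∑ z * f`; `z * z = z`: `z * z = ∑ z * z * f`, and for each block `z * z * f` and `z * f` are both `f` or both `0`.
-/

namespace Pool.Agent.Lib.P0c8ca5.Wr

open MonoidAlgebra

set_option linter.unusedSectionVars false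

variable {p : ℕ} [Fact p.Prime] {k : Type*} [Field k] [IsAlgClosed k] [CharP k p] {A : Type*}
  [Group A] [Fintype A]

namespace DzAAux

theorem comm_hpe {f : MonoidAlgebra k A} (hf : IsBlock (⊤ : Subgroup A) f) :
    Commute (hpe p k A) f :=
  (commute_of hf.suppIn (mem_fixAlg.1 (hpe_mem (p := p) (k := k) (A := A))).2).symm

theorem pow_mul {f : MonoidAlgebra k A} (hf : IsBlock (⊤ : Subgroup A) f) {n : ℕ} (hn : n ≠ 0) :
    (hpe p k A * f) ^ n = hpe p k A ^ n * f := by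
  rw [(comm_hpe hf).mul_pow, IsIdempotentElem.pow_eq hf.idem hn]

theorem mul_dz {f : MonoidAlgebra k A} (hf : IsDZ p (⊤ : Subgroup A) f) {n : ℕ} (hn : n ≠ 0) :
    hpe p k A ^ n * f = f := by
  rw [← pow_mul hf.blk hn, hpe_mul_dz hf, IsIdempotentElem.pow_eq hf.blk.idem hn]

theorem mul_ndz {f : MonoidAlgebra k A} (hf : IsBlock (⊤ : Subgroup A) f)
    (h : ¬ IsDZ p (⊤ : Subgroup A) f) : ∃ m : ℕ, ∀ n, m ≤ n → hpe p k A ^ n * f = 0 := by
  obtain ⟨m, hm⟩ := hpe_nonDZ hf h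
  refine ⟨m + 1, fun n hn => ?_⟩
  rw [← pow_mul hf (by omega), ← Nat.sub_add_cancel (show m ≤ n by omega), pow_add, hm, mul_zero]

end DzAAux

open DzAAux in
theorem exists_isDi : ∃ n₀ : ℕ, ∀ n, n₀ ≤ n → IsDi p (hpe p k A ^ n) := by
  classical
  have hfin := finite_isBlock (k := k) (⊤ : Subgroup A)
  set B : Finset (MonoidAlgebra k A) := hfin.toFinset with hBdef
  have hB0 : ∀ b, b ∈ B ↔ IsBlock (⊤ : Subgroup A) b := by
    intro b
    rw [hBdef, Set.Finite.mem_toFinset]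
    exact Iff.rfl
  have hB : ∀ b, b ∈ B ↔ IsBlock (⊤ : Subgroup A) b ∧ b * 1 ≠ 0 := by
    intro b
    rw [hB0, mul_one]
    exact ⟨fun h => ⟨h, h.ne_zero⟩, fun h => h.1⟩
  have h1mem : (1 : MonoidAlgebra k A) ∈ fixAlg k (⊤ : Subgroup A) ⊤ :=
    (fixAlg k (⊤ : Subgroup A) ⊤).one_mem
  have hsum := WSumAux.sum_blocks (p := p) h1mem (one_mul 1) B hB
  have hex : ∀ b : MonoidAlgebra k A, ∃ m : ℕ, IsBlock (⊤ : Subgroup A) b →
      ¬ IsDZ p (⊤ : Subgroup A) b → ∀ n, m ≤ n → hpe p k A ^ n * b = 0 := by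
    intro b
    by_cases hb : IsBlock (⊤ : Subgroup A) b ∧ ¬ IsDZ p (⊤ : Subgroup A) b
    · obtain ⟨m, hm⟩ := mul_ndz (p := p) hb.1 hb.2
      exact ⟨m, fun _ _ => hm⟩
    · exact ⟨0, fun h h' => absurd ⟨h, h'⟩ hb⟩
  choose m hm using hex
  refine ⟨B.sup m + 1, fun n hn => ?_⟩
  have hn0 : n ≠ 0 := by omega
  have hnz : ∀ b : MonoidAlgebra k A, IsBlock (⊤ : Subgroup A) b →
      ¬ IsDZ p (⊤ : Subgroup A) b → hpe p k A ^ n * b = 0 := by
    intro b hb hd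
    refine hm b hb hd n ?_
    have := Finset.le_sup (f := m) ((hB0 b).2 hb)
    omega
  have hzmem : hpe p k A ^ n ∈ fixAlg k (⊤ : Subgroup A) ⊤ :=
    (fixAlg k (⊤ : Subgroup A) ⊤).pow_mem (hpe_mem (p := p) (k := k) (A := A)) n
  refine ⟨hzmem, ?_, ?_, ?_⟩
  · have key : ∀ b ∈ B, hpe p k A ^ n * (hpe p k A ^ n * b) = hpe p k A ^ n * b := by
      intro b hb
      by_cases hd : IsDZ p (⊤ : Subgroup A) b
      · rw [mul_dz hd hn0, mul_dz hd hn0]
      · rw [hnz b ((hB0 b).1 hb) hd, mul_zero]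
    calc hpe p k A ^ n * hpe p k A ^ n
        = hpe p k A ^ n * (hpe p k A ^ n * ∑ b ∈ B, b) := by rw [hsum, mul_one]
      _ = ∑ b ∈ B, hpe p k A ^ n * (hpe p k A ^ n * b) := by
          rw [Finset.mul_sum, Finset.mul_sum]
      _ = ∑ b ∈ B, hpe p k A ^ n * b := Finset.sum_congr rfl key
      _ = hpe p k A ^ n := by rw [← Finset.mul_sum, hsum, mul_one]
  · intro f hf
    rw [((comm_hpe hf.blk).pow_left n).symm.eq, mul_dz hf hn0]
  · intro f hf hd
    rw [((comm_hpe hf).pow_left n).symm.eq, hnz f hf hd]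

end Pool.Agent.Lib.P0c8ca5.Wr
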