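import Mathlib
import Pool.Agent.Lib.P0c8ca5A.DimR
import Pool.Agent.Lib.P0c8ca5R.CardDZ

/-!
# DzB (0.8 h): the number of blocks of defect zero as a number of irreducible characters

PROOF.  `c * z` is a central idempotent.  `lN_bot` and `card_irX_blocks` (P0c8ca5N.WSum): `lN (c * z) = ∑ b ∈ Bl, Nat.card (Quotient (irrInvSetoid ⊤ ⊥ b))`, `Bl` the set of the blocks `b` with
`b * (c * z) ≠ 0` (finite: `finite_isBlock`).  For a block `b`, `b * c` is `b` or `0` (`IsBlock.mul_eq`), `b * z = b` if `b` has defect zero and `b * z = 0` otherwise (`IsDi`).  So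
`Bl = {b | IsDZ p ⊤ b ∧ b * c = b}`, and each term is `1` (`Rk.card_irr_dz` in P0c8ca5R.CardDZ).
`lN_add`: `lN_bot` for all the terms and `card_irX_blocks`.
-/

namespace Pool.Agent.Lib.P0c8ca5.Wr

open MonoidAlgebra

set_option linter.unusedSectionVars false

variable {p : ℕ} [Fact p.Prime] {k : Type*} [Field k] [IsAlgClosed k] [CharP k p] {A : Type*}
  [Group A] [Fintype A]

theorem DzBAux.lN_bot' (p : ℕ) [Fact p.Prime] [CharP k p] {e : MonoidAlgebra k A}
    (he : e ∈ fixAlg k (⊤ : Subgroup A) ⊤) (hee : e * e = e) :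
    lN e = Nat.card (Quotient (irrInvSetoid (⊤ : Subgroup A) ⊥ e)) := by
  first
    | exact lN_bot he hee
    | exact lN_bot (p := p) he hee
    | exact lN_bot p he hee

open DzBAux

theorem lN_add (p : ℕ) [Fact p.Prime] [CharP k p] {e : MonoidAlgebra k A} (he : e ∈ fixAlg k (⊤ : Subgroup A) ⊤) (hee : e * e = e)
    (Bl : Finset (MonoidAlgebra k A))
    (hBl : ∀ b, b ∈ Bl ↔ IsBlock (⊤ : Subgroup A) b ∧ b * e ≠ 0) :
    lN e = ∑ b ∈ Bl, lN b := by
  rw [lN_bot' p he hee,
    card_irX_blocks (p := p) (mem_fixAlg.1 he).1 (mem_fixAlg.1 he).2 hee Bl hBl]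
  refine Finset.sum_congr rfl fun b hb => ?_
  rw [lN_bot' p ((hBl b).1 hb).1.mem ((hBl b).1 hb).1.idem]

theorem dzN_eq {z c : MonoidAlgebra k A} (hz : IsDi p z) (hc : c ∈ fixAlg k (⊤ : Subgroup A) ⊤)
    (hcc : c * c = c) : dzN p c = lN (c * z) := by
  classical
  have hzc : c * z = z * c := commute_of (mem_fixAlg.1 hc).1 (mem_fixAlg.1 hz.mem).2
  have hmem : c * z ∈ fixAlg k (⊤ : Subgroup A) ⊤ := Subalgebra.mul_mem _ hc hz.mem
  have hidem : c * z * (c * z) = c * z := by
    calc c * z * (c * z) = c * (z * c) * z := by rw [mul_assoc, mul_assoc, mul_assoc]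
      _ = c * (c * z) * z := by rw [hzc]
      _ = c * c * (z * z) := by rw [mul_assoc, mul_assoc, mul_assoc]
      _ = c * z := by rw [hcc, hz.idem]
  have hfin : {b : MonoidAlgebra k A | IsBlock (⊤ : Subgroup A) b ∧ b * (c * z) ≠ 0}.Finite :=
    (finite_isBlock (k := k) (⊤ : Subgroup A)).subset (fun b hb => hb.1)
  have hB : ∀ b, b ∈ hfin.toFinset ↔ IsBlock (⊤ : Subgroup A) b ∧ b * (c * z) ≠ 0 := by
    intro b
    rw [Set.Finite.mem_toFinset]
    rfl
  have hiff : ∀ b : MonoidAlgebra k A, b ∈ hfin.toFinset ↔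
      IsDZ p (⊤ : Subgroup A) b ∧ b * c = b := by
    intro b
    rw [hB]
    constructor
    · rintro ⟨h1, h2⟩
      have h3 : IsDZ p (⊤ : Subgroup A) b := by
        by_contra h
        apply h2
        rw [hzc, ← mul_assoc, hz.nz b h1 h, zero_mul]
      refine ⟨h3, ?_⟩
      have h4 : b * c = c * b := commute_of h1.suppIn (mem_fixAlg.1 hc).2
      rcases h1.mul_eq hc hcc with h | h
      · exfalso
        apply h2
        rw [← mul_assoc, h4, h, zero_mul]
      · rw [h4, h]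
    · rintro ⟨h1, h2⟩
      refine ⟨h1.blk, ?_⟩
      rw [← mul_assoc, h2, hz.dz b h1]
      exact h1.blk.ne_zero
  have hcard : dzN p c = hfin.toFinset.card := by
    have h1 : {f : MonoidAlgebra k A | IsDZ p (⊤ : Subgroup A) f ∧ f * c = f} =
        (hfin.toFinset : Set (MonoidAlgebra k A)) := by
      ext b
      rw [Finset.mem_coe, hiff]
      rfl
    rw [dzN, h1]
    exact Nat.card_eq_card_toFinset _ |>.trans (by simp)
  rw [hcard, lN_add p hmem hidem hfin.toFinset hB, Finset.card_eq_sum_ones]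
  refine Finset.sum_congr rfl fun b hb => ?_
  rw [lN_bot' p ((hB b).1 hb).1.mem ((hB b).1 hb).1.idem,
    Rk.card_irr_dz ((hiff b).1 hb).1]

end Pool.Agent.Lib.P0c8ca5.Wr
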