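import Mathlib
import Pool.Agent.Lib.P0c8ca5A.PrW
import Pool.Agent.Lib.P0c8ca5O.BlkE

/-!
# HpW (1 h): the map b ↦ b ⊗ ⋯ ⊗ b

PROOF.  `el_eq_tr` (P0c8ca5O.BlkE, namespace `BlkEAux` or as there): `el r b = tr (ps1 r G) (pt fun _ => b)`; `el_mul` from `tr_mul` (everything is supported in `⊤`) and `pt_mul`
(P0c8ca5O.PiA).  `el_one`: compare coefficients (`(1 : MonoidAlgebra k G).coeff`, `MonoidAlgebra.one_def`, or `pt_one`).  `el_pow`: induction.  `el_mem`: `el_invBy` (P0c8ca5O.Act), `mem_fixAlg`.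
`hpe_wr`: compare coefficients at `x` (`hpe_coeff`, `coeff_el`): if `x.right ≠ 1` then `x` is not a p-element (`pel_right`); if `x.right = 1` then `x` is a p-element iff all `x.left q` are
(powers are componentwise; `Pel p x` is `∃ n, x ^ p ^ n = 1`; take the maximum of the exponents, or `Pel p y ↔ y ^ p ^ m = 1` for one large `m`), and the product of the indicators is the indicator.
-/

namespace Pool.Agent.Lib.P0c8ca5.Wr

open MonoidAlgebra

set_option linter.unusedSectionVars false

variable {p r : ℕ} [Fact p.Prime] [Fact r.Prime] {k : Type*} [Field k] {G : Type*} [Group G]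
  [Finite G]

namespace HpWAux

omit [Fact p.Prime] [Fact r.Prime] [Finite G] in
/-- the base group is a direct power of `G` -/
def ps1 (r : ℕ) (G : Type*) [Group G] : ↥(⊤ : Subgroup (Cp r → G)) ≃* ↥(bs r G) where
  toFun x := ⟨⟨x.1, 1⟩, mem_bs.2 rfl⟩
  invFun y := ⟨y.1.left, Subgroup.mem_top _⟩
  left_inv x := rfl
  right_inv y := by
    apply Subtype.ext
    exact RegularWreathProduct.ext rfl (mem_bs.1 y.2).symm
  map_mul' x y := by
    apply Subtype.ext
    apply RegularWreathProduct.ext
    · funext q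
      change x.1 q * y.1 q = x.1 q * y.1 ((1 : Cp r)⁻¹ * q)
      rw [inv_one, one_mul]
    · exact (mul_one (1 : Cp r)).symm

theorem el_eq_tr (b : MonoidAlgebra k G) :
    el r b = tr (ps1 r G) (pt fun _ : Cp r => b) := by
  ext x
  by_cases hx : x ∈ bs r G
  · rw [coeff_tr' (ps1 r G) _ hx, coeff_pt, coeff_el, tn_of (mem_bs.1 hx)]
    rfl
  · rw [coeff_tr_of_notMem _ _ hx, coeff_el, tn_not (fun h => hx (mem_bs.2 h))]

theorem pel_of_left {x : WG r G} (hx : x.right = 1) (h : ∀ q, Pel p (x.left q)) : Pel p x := by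
  choose n hn using h
  refine ⟨∑ q, n q, ?_⟩
  apply RegularWreathProduct.ext
  · funext q
    rw [IrSrAux.pow_left hx]
    have h1 : n q ≤ ∑ q, n q := Finset.single_le_sum (fun i _ => Nat.zero_le _) (Finset.mem_univ q)
    obtain ⟨m, hm⟩ := Nat.exists_eq_add_of_le h1
    rw [hm, pow_add, pow_mul, hn, one_pow]
    rfl
  · exact IrSrAux.pow_right hx _

theorem left_of_pel {x : WG r G} (hx : x.right = 1) (h : Pel p x) (q : Cp r) :
    Pel p (x.left q) := by
  obtain ⟨n, hn⟩ := h
  refine ⟨n, ?_⟩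
  rw [← IrSrAux.pow_left hx, hn]
  rfl

end HpWAux

open HpWAux

theorem el_mul (a b : MonoidAlgebra k G) : el r a * el r b = el r (a * b) := by
  rw [el_eq_tr, el_eq_tr, el_eq_tr, ← tr_mul _ (fun _ _ => Subgroup.mem_top _)
    (fun _ _ => Subgroup.mem_top _), pt_mul]

theorem el_one : el r (1 : MonoidAlgebra k G) = 1 := by
  classical
  ext x
  rw [coeff_el]
  by_cases hx : x.right = 1
  · rw [tn_of hx]
    by_cases h : ∀ q, x.left q = 1
    · have h1 : x = 1 := RegularWreathProduct.ext (funext h) hx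
      subst h1
      rw [coeff_one_one]
      refine Finset.prod_eq_one fun q _ => ?_
      exact coeff_one_one
    · have h1 : x ≠ 1 := fun h2 => h fun q => by rw [h2]; rfl
      have h2 : (1 : MonoidAlgebra k (WG r G)).coeff x = 0 := by
        rw [one_def, coeff_single, Finsupp.single_apply, if_neg (Ne.symm h1)]
      rw [h2]
      push Not at h
      obtain ⟨q, hq⟩ := h
      refine Finset.prod_eq_zero (Finset.mem_univ q) ?_
      rw [one_def, coeff_single, Finsupp.single_apply, if_neg (Ne.symm hq)]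
  · have h1 : x ≠ 1 := fun h2 => hx (by rw [h2]; rfl)
    rw [tn_not hx, one_def, coeff_single, Finsupp.single_apply, if_neg (Ne.symm h1)]

theorem el_pow (a : MonoidAlgebra k G) (n : ℕ) : el r a ^ n = el r (a ^ n) := by
  induction n with
  | zero => rw [pow_zero, pow_zero, el_one]
  | succ n ih => rw [pow_succ, ih, el_mul, ← pow_succ]

theorem el_mem {b : MonoidAlgebra k G} (hb : b ∈ fixAlg k (⊤ : Subgroup G) ⊤) :
    el r b ∈ fixAlg k (⊤ : Subgroup (WG r G)) ⊤ :=
  mem_fixAlg.2 ⟨fun _ _ => Subgroup.mem_top _, el_invBy (mem_fixAlg.1 hb).2⟩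

theorem hpe_wr [Finite (WG r G)] (hpr : p ≠ r) :
    hpe p k (WG r G) = el r (hpe p k G) := by
  classical
  ext x
  rw [hpe_coeff, coeff_el]
  by_cases hx : x.right = 1
  · rw [tn_of hx]
    have h1 : ∀ y : G, ((hpe p k G).coeff : G → k) y = if Pel p y then (1 : k) else 0 :=
      fun y => hpe_coeff p k y
    by_cases h : ∀ q, Pel p (x.left q)
    · rw [if_pos (pel_of_left hx h)]
      refine (Finset.prod_eq_one fun q _ => ?_).symm
      rw [h1, if_pos (h q)]
    · rw [if_neg (fun h2 => h (left_of_pel hx h2))]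
      push Not at h
      obtain ⟨q, hq⟩ := h
      refine (Finset.prod_eq_zero (Finset.mem_univ q) ?_).symm
      rw [h1, if_neg hq]
  · rw [tn_not hx, if_neg (fun h => hx (pel_right hpr h))]

end Pool.Agent.Lib.P0c8ca5.Wr
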