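import Mathlib
import Pool.Agent.Lib.P0c8ca5A.IrSr
import Pool.Agent.Lib.P0c8ca5O.IrB

/-!
# IrBr: the irreducible characters of the base group in `b ⊗ ⋯ ⊗ b` (`G ≀ C_r`, char `p`)
-/

namespace Pool.Agent.Lib.P0c8ca5.Wr

open MonoidAlgebra

set_option linter.unusedSectionVars false

variable {r : ℕ} [Fact r.Prime] {k : Type*} [Field k] {G : Type*} [Group G] [Fintype G]
  [Fintype (WG r G)]

theorem exists_equivI_r (p : ℕ) [Fact p.Prime] [IsAlgClosed k] [CharP k p] {b : MonoidAlgebra k G}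
    (hb : InvBy (⊤ : Subgroup G) b) (hbb : b * b = b) :
    ∃ Φ : (Cp r → ↥(Ich (⊤ : Subgroup G) b)) ≃ ↥(Ich (bs r G) (el r b)),
      ∀ t, (Φ t).1 = tn fun q => (t q).1 := by
  have hmem : ∀ t : Cp r → ↥(Ich (⊤ : Subgroup G) b),
      (tn fun q => (t q).1) ∈ Ich (bs r G) (el r b) := by
    intro t
    refine ⟨tn_mem_IrrCh fun q => (t q).2.1, ?_⟩
    rw [conv_tn]
    congr 1
    funext q
    exact (t q).2.2
  have hbij : Function.Bijective
      (fun t : Cp r → ↥(Ich (⊤ : Subgroup G) b) =>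
        (⟨tn fun q => (t q).1, hmem t⟩ : ↥(Ich (bs r G) (el r b)))) := by
    constructor
    · intro t t' h
      have h1 : (tn fun q => (t q).1) = tn fun q => (t' q).1 := congrArg Subtype.val h
      have h2 := tn_inj_r (fun q => (t q).2.1) (fun q => (t' q).2.1) h1
      funext q
      exact Subtype.ext (congrFun h2 q)
    · rintro ⟨η, hη1, hη2⟩
      obtain ⟨χ, hχ, rfl⟩ := exists_tn_of_mem_r p hη1
      have hne : tn χ ≠ 0 :=
        (chi_linearIndependent (k := k) (bs r G)).ne_zero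
          (⟨tn χ, tn_mem_IrrCh hχ⟩ : IrrCh k (bs r G))
      have hall : ∀ q, conv b (χ q) = χ q := by
        intro q
        by_contra hq
        have h0 : conv b (χ q) = 0 :=
          conv_eq_zero_of_ne (N := (⊤ : Subgroup G)) (fun x _ => Subgroup.mem_top x) hb hbb
            (⟨χ q, hχ q⟩ : IrrCh k (⊤ : Subgroup G)) hq
        apply hne
        rw [← hη2, conv_tn]
        funext x
        by_cases hx : x.right = 1
        · rw [tn_of hx]
          refine Finset.prod_eq_zero (Finset.mem_univ q) ?_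
          rw [h0]
          rfl
        · rw [tn_not hx]
          rfl
      exact ⟨fun q => ⟨χ q, hχ q, hall q⟩, rfl⟩
  exact ⟨Equiv.ofBijective _ hbij, fun t => rfl⟩

end Pool.Agent.Lib.P0c8ca5.Wr
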