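import Mathlib
import Pool.Agent.Lib.P0c8ca5A.PrW

/-!
# Spl (1.2 h): class functions split over the cosets of the base group

PROOF.  `conv e f x = ∑ h, e.coeff h * f (h * x)`, and for `h` in the base group `(h * x).right = x.right`; conjugation does not change `x.right` (`conj_right`, P0c8ca5O.Act; apply it to `a⁻¹`);
`pr p x` has the same right component as `x` (`pr_right_r`).  So for `f ∈ Wb p ⊤ e` and `c : Cp r` the function `f_c x = if x.right = c then f x else 0` is in `VC p c e`, and `f = ∑ c, f_c`.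
This gives a linear equivalence `Wb p ⊤ e ≃ₗ[k] (∀ c, VC p c e)` (inverse: the sum), and `Module.finrank_pi_fintype`.
`VC_one`: for `f` supported in the base group (`x.right ≠ 1` iff `x ∉ bs r G`): `f ∈ Wb p ⊤ e ∧ (support)` iff `f ∈ Wb p (bs r G) e` and `f` is invariant under conjugation
(`mem_XH`, `mem_VC`, `mem_VR`; for `x ∉ bs r G` also `pr p x ∉ bs r G`).
-/

namespace Pool.Agent.Lib.P0c8ca5.Wr

open MonoidAlgebra

set_option linter.unusedSectionVars false

variable {p r : ℕ} [Fact p.Prime] [Fact r.Prime] {k : Type*} [Field k] [IsAlgClosed k] [CharP k p]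
  {G : Type*} [Group G] [Fintype G] [Fintype (WG r G)]

theorem VC_one (hpr : p ≠ r) {e : MonoidAlgebra k (WG r G)} :
    VC p 1 e = VR p (bs r G) e := by
  ext f
  rw [mem_VC, mem_VR, mem_XH, mem_XH]
  constructor
  · rintro ⟨⟨⟨_, h2, h3⟩, h4⟩, h5⟩
    refine ⟨⟨⟨fun x hx => h5 x (fun h => hx (mem_bs.2 h)),
      fun h _ x => h2 h (Subgroup.mem_top h) x, fun x _ => h3 x (Subgroup.mem_top x)⟩, h4⟩,
      fun a x => ?_⟩
    have h6 := h2 a⁻¹ (Subgroup.mem_top _) x
    rwa [inv_inv] at h6
  · rintro ⟨⟨⟨h1, _, h3⟩, h4⟩, h5⟩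
    refine ⟨⟨⟨fun x hx => absurd (Subgroup.mem_top x) hx, fun h _ x => ?_, fun x _ => ?_⟩, h4⟩,
      fun x hx => h1 x (fun h => hx (mem_bs.1 h))⟩
    · have h6 := h5 h⁻¹ x
      rwa [inv_inv] at h6
    · by_cases hx : x ∈ bs r G
      · exact h3 x hx
      · have h6 : pr p x ∉ bs r G := fun h => hx (by
          rw [mem_bs] at h ⊢
          rwa [pr_right_r hpr] at h)
        rw [h1 x hx, h1 _ h6]

namespace SplAux

open Classical in
/-- the part of a function on the coset of `c` -/
noncomputable def cut (c : Cp r) (f : WG r G → k) : WG r G → k := fun x =>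
  if x.right = c then f x else 0

theorem cut_of {c : Cp r} {f : WG r G → k} {x : WG r G} (h : x.right = c) :
    cut c f x = f x := if_pos h

theorem cut_not {c : Cp r} {f : WG r G → k} {x : WG r G} (h : x.right ≠ c) :
    cut c f x = 0 := if_neg h

theorem cut_congr {c : Cp r} {f : WG r G → k} {x y : WG r G} (h : x.right = y.right)
    (h' : f x = f y) : cut c f x = cut c f y := by
  by_cases hx : x.right = c
  · rw [cut_of hx, cut_of (h ▸ hx), h']
  · rw [cut_not hx, cut_not (h ▸ hx)]

theorem cut_add (c : Cp r) (f g : WG r G → k) : cut c (f + g) = cut c f + cut c g := by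
  funext x
  rw [Pi.add_apply]
  by_cases hx : x.right = c
  · rw [cut_of hx, cut_of hx, cut_of hx, Pi.add_apply]
  · rw [cut_not hx, cut_not hx, cut_not hx, add_zero]

theorem cut_smul (c : Cp r) (a : k) (f : WG r G → k) : cut c (a • f) = a • cut c f := by
  funext x
  rw [Pi.smul_apply]
  by_cases hx : x.right = c
  · rw [cut_of hx, cut_of hx, Pi.smul_apply]
  · rw [cut_not hx, cut_not hx, smul_zero]

theorem cut_mem (hpr : p ≠ r) {e : MonoidAlgebra k (WG r G)} (he : SuppIn (bs r G) e)
    {f : WG r G → k} (hf : f ∈ Bq.RvBAux.Wb p (⊤ : Subgroup (WG r G)) e) (c : Cp r) :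
    cut c f ∈ VC p c e := by
  rw [mem_Wb, mem_XH] at hf
  obtain ⟨⟨_, h2, h3⟩, h4⟩ := hf
  rw [mem_VC, mem_XH]
  refine ⟨⟨⟨fun x hx => absurd (Subgroup.mem_top x) hx, fun h _ x => ?_, fun x _ => ?_⟩, ?_⟩,
    fun x hx => cut_not hx⟩
  · refine cut_congr ?_ (h2 h (Subgroup.mem_top h) x)
    have h6 := conj_right h⁻¹ x
    rwa [inv_inv] at h6
  · exact cut_congr (pr_right_r hpr x) (h3 x (Subgroup.mem_top x))
  · funext x
    have h5 : ∀ h : WG r G, e.coeff h ≠ 0 → (h * x).right = x.right := fun h hh => by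
      rw [RegularWreathProduct.mul_right, mem_bs.1 (he h hh), one_mul]
    unfold conv
    by_cases hx : x.right = c
    · rw [cut_of hx, ← congrFun h4 x]
      unfold conv
      refine Finset.sum_congr rfl (fun h _ => ?_)
      by_cases hh : e.coeff h = 0
      · rw [hh, zero_mul, zero_mul]
      · rw [cut_of ((h5 h hh).trans hx)]
    · rw [cut_not hx]
      refine Finset.sum_eq_zero (fun h _ => ?_)
      by_cases hh : e.coeff h = 0
      · rw [hh, zero_mul]
      · rw [cut_not (fun h7 => hx ((h5 h hh).symm.trans h7)), mul_zero]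

theorem sum_cut (f : WG r G → k) : ∑ c : Cp r, cut c f = f := by
  funext x
  rw [Finset.sum_apply, Finset.sum_eq_single x.right (fun c _ hc => cut_not (Ne.symm hc))
    (fun h => absurd (Finset.mem_univ _) h), cut_of rfl]

theorem cut_self {e : MonoidAlgebra k (WG r G)} {c : Cp r} {f : WG r G → k}
    (hf : f ∈ VC p c e) : cut c f = f := by
  funext x
  by_cases hx : x.right = c
  · exact cut_of hx
  · rw [cut_not hx, (mem_VC.1 hf).2 x hx]

theorem cut_other {e : MonoidAlgebra k (WG r G)} {c d : Cp r} (hcd : c ≠ d) {f : WG r G → k}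
    (hf : f ∈ VC p d e) : cut c f = 0 := by
  funext x
  by_cases hx : x.right = c
  · rw [cut_of hx, (mem_VC.1 hf).2 x (fun h => hcd (hx.symm.trans h)), Pi.zero_apply]
  · rw [cut_not hx, Pi.zero_apply]

/-- the splitting -/
noncomputable def spl (hpr : p ≠ r) {e : MonoidAlgebra k (WG r G)} (he : SuppIn (bs r G) e) :
    ↥(Bq.RvBAux.Wb p (⊤ : Subgroup (WG r G)) e) ≃ₗ[k] (∀ c : Cp r, ↥(VC p c e)) where
  toFun f := fun c => ⟨cut c f.1, cut_mem hpr he f.2 c⟩
  map_add' f g := by
    funext c
    exact Subtype.ext (cut_add c f.1 g.1)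
  map_smul' a f := by
    funext c
    exact Subtype.ext (cut_smul c a f.1)
  invFun g := ⟨∑ c, (g c).1, Submodule.sum_mem _ (fun c _ => (g c).2.1)⟩
  left_inv f := Subtype.ext (sum_cut f.1)
  right_inv g := by
    funext c
    refine Subtype.ext ?_
    have h1 : ∀ T : Finset (Cp r), cut c (∑ d ∈ T, (g d).1) = ∑ d ∈ T, cut c (g d).1 := by
      intro T
      classical
      induction T using Finset.induction_on with
      | empty =>
        rw [Finset.sum_empty, Finset.sum_empty]
        funext x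
        by_cases hx : x.right = c
        · rw [cut_of hx]
        · rw [cut_not hx, Pi.zero_apply]
      | insert a T ha ih => rw [Finset.sum_insert ha, Finset.sum_insert ha, cut_add, ih]
    change cut c (∑ d, (g d).1) = (g c).1
    rw [h1, Finset.sum_eq_single c (fun d _ hd => cut_other (Ne.symm hd) (g d).2)
      (fun h => absurd (Finset.mem_univ _) h), cut_self (g c).2]

end SplAux

theorem finrank_split (hpr : p ≠ r) {e : MonoidAlgebra k (WG r G)} (he : SuppIn (bs r G) e) :
    Module.finrank k ↥(Bq.RvBAux.Wb p (⊤ : Subgroup (WG r G)) e)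
      = ∑ c : Cp r, Module.finrank k ↥(VC p c e) := by
  rw [(SplAux.spl hpr he).finrank_eq, Module.finrank_pi_fintype]

end Pool.Agent.Lib.P0c8ca5.Wr
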