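import Mathlib
import Pool.Agent.Lib.P0c8ca5A.DimR
import Pool.Agent.Lib.P0c8ca5A.Spl
import Pool.Agent.Lib.P0c8ca5A.CyC
import Pool.Agent.Lib.P0c8ca5A.HpW
import Pool.Agent.Lib.P0c8ca5A.DzA
import Pool.Agent.Lib.P0c8ca5A.DzB
import Pool.Agent.Lib.P0c8ca5A.IrBr
import Pool.Agent.Lib.P0c8ca5O.Main

/-!
# LW: the number of irreducible representations and of blocks of defect zero of `G ≀ C_r`
-/

namespace Pool.Agent.Lib.P0c8ca5.Wr

open MonoidAlgebra

set_option linter.unusedSectionVars false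

variable {p r : ℕ} [Fact p.Prime] [Fact r.Prime] {k : Type*} [Field k] [IsAlgClosed k] [CharP k p]
  {G : Type*} [Group G] [Finite G]

/-- the number of orbits on the irreducible characters of the base group -/
theorem orb_l (p : ℕ) [Fact p.Prime] [CharP k p] [Fintype G] [Fintype (WG r G)] {b : MonoidAlgebra k G}
    (hb : InvBy (⊤ : Subgroup G) b) (hbb : b * b = b) :
    Nat.card (Quotient (chSet (bs r G) (el r b))) = ff r (lN b) := by
  have h1 : lN b = Nat.card (Quotient (chSet (⊤ : Subgroup G) b)) :=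
    cnt_l (p := p) (fun x => ⟨0, Subgroup.mem_top _⟩) (fun _ _ => Subgroup.mem_top _) hb hbb
  obtain ⟨Φ, hΦ⟩ := exists_equivI_r (r := r) p hb hbb
  letI : MulAction G ↥(Ich (⊤ : Subgroup G) b) :=
    { smul := fun _ y => y, one_smul := fun _ => rfl, mul_smul := fun _ _ _ => rfl }
  have hfin : Finite ↥(Ich (⊤ : Subgroup G) b) :=
    Set.Finite.subset (Set.toFinite (IrrCh k (⊤ : Subgroup G))) (fun _ h => h.1)
  rw [h1]
  refine orb_card (G := G) (chSet (⊤ : Subgroup G) b) (chSet (bs r G) (el r b)) ?_ Φ ?_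
  · intro y y'
    constructor
    · rintro ⟨g, hg⟩
      refine ⟨1, Subtype.ext (funext fun x => ?_)⟩
      rw [hg, Ich_conj y.2]
      rfl
    · rintro ⟨g, hg⟩
      refine ⟨1, fun x => ?_⟩
      have h3 : y' = y := hg
      rw [h3, inv_one, one_mul, mul_one]
  · intro t t'
    have key : ∀ (a : WG r G), (∀ x, (Φ t').1 x = (Φ t).1 (a⁻¹ * x * a)) ↔
        ∀ q, t' q = t (a.right⁻¹ * q) := by
      intro a
      have h3 : (fun x => (Φ t).1 (a⁻¹ * x * a)) = (Φ fun q => t (a.right⁻¹ * q)).1 := by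
        funext x
        rw [hΦ, hΦ, tn_conj]
        congr 1
        funext q y
        exact Ich_conj (t (a.right⁻¹ * q)).2 (a.left q) y
      constructor
      · intro h q
        have h4 : (Φ t').1 = (Φ fun q => t (a.right⁻¹ * q)).1 := (funext h).trans h3
        exact congrFun (Φ.injective (Subtype.ext h4)) q
      · intro h x
        have h4 : t' = fun q => t (a.right⁻¹ * q) := funext h
        rw [h4, ← h3]
    constructor
    · rintro ⟨a, ha⟩
      exact ⟨a, (key a).1 ha⟩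
    · rintro ⟨a, ha⟩
      exact ⟨a, (key a).2 ha⟩

theorem lN_el (hpr : p ≠ r) {b : MonoidAlgebra k G} (hb : b ∈ fixAlg k (⊤ : Subgroup G) ⊤)
    (hbb : b * b = b) : lN (el r b) = fg r (lN b) := by
  classical
  have _ : Fintype G := Fintype.ofFinite G
  have _ : Fintype (WG r G) := Fintype.ofFinite _
  have hinv : InvBy (⊤ : Subgroup G) b := (mem_fixAlg.1 hb).2
  have hee : el r b * el r b = el r b := by rw [el_mul, hbb]
  rw [lN_eq (p := p) (el_mem hb) hee, finrank_split hpr (el_suppIn b),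
    ← Finset.add_sum_erase Finset.univ _ (Finset.mem_univ (1 : Cp r)), VC_one hpr,
    finrank_VR (el_suppIn b) (el_invBy hinv) hee, orb_l p hinv hbb]
  have h1 : ∑ c ∈ Finset.univ.erase (1 : Cp r), Module.finrank k ↥(VC p c (el r b))
      = ∑ c ∈ Finset.univ.erase (1 : Cp r), lN b := by
    refine Finset.sum_congr rfl fun c hc => ?_
    rw [finrank_VC hpr (Finset.ne_of_mem_erase hc) hb hbb, lN_eq (p := p) hb hbb]
  have h2 : Fintype.card (Cp r) = r := by
    rw [Fintype.card_multiplicative, ZMod.card]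
  rw [h1, Finset.sum_const, Finset.card_erase_of_mem (Finset.mem_univ _), Finset.card_univ, h2,
    smul_eq_mul]
  rfl

theorem mul_mem_idem {A : Type*} [Group A] {c z : MonoidAlgebra k A}
    (hc : c ∈ fixAlg k (⊤ : Subgroup A) ⊤) (hcc : c * c = c)
    (hz : z ∈ fixAlg k (⊤ : Subgroup A) ⊤) (hzz : z * z = z) :
    c * z ∈ fixAlg k (⊤ : Subgroup A) ⊤ ∧ (c * z) * (c * z) = c * z := by
  refine ⟨(fixAlg k _ _).mul_mem hc hz, ?_⟩
  have h1 : z * c = c * z :=
    commute_of (mem_fixAlg.1 hz).1 (mem_fixAlg.1 hc).2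
  rw [mul_assoc, ← mul_assoc z c z, h1, mul_assoc c z z, hzz, ← mul_assoc, hcc]

theorem dzN_el (hpr : p ≠ r) {c : MonoidAlgebra k G} (hc : c ∈ fixAlg k (⊤ : Subgroup G) ⊤)
    (hcc : c * c = c) : dzN p (el r c) = fg r (dzN p c) := by
  classical
  have _ : Fintype G := Fintype.ofFinite G
  have _ : Fintype (WG r G) := Fintype.ofFinite _
  obtain ⟨n₀, hn₀⟩ := exists_isDi (p := p) (k := k) (A := G)
  obtain ⟨n₁, hn₁⟩ := exists_isDi (p := p) (k := k) (A := WG r G)
  have h1 := hn₀ (max n₀ n₁) (le_max_left _ _)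
  have h2 := hn₁ (max n₀ n₁) (le_max_right _ _)
  rw [hpe_wr hpr, el_pow] at h2
  obtain ⟨h3, h4⟩ := mul_mem_idem hc hcc h1.mem h1.idem
  rw [dzN_eq h2 (el_mem hc) (by rw [el_mul, hcc]), el_mul, lN_el hpr h3 h4, dzN_eq h1 hc hcc]

end Pool.Agent.Lib.P0c8ca5.Wr
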