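import Mathlib
import Pool.Agent.Lib.P0c8ca5O.Act

/-!
# NQi (1.2 h): the normalizer quotient of a diagonal subgroup

PROOF.  Write `S = ps fun _ => R`.  `mem_norm_diag`: `x ∈ N(S)` iff `cg x S = S` (P0c8ca5 library: `cg_eq_self_iff`), and `cg x S = ps fun q => cg (x.left q) R` (`cg_ps`, P0c8ca5O.Act); `ps` is injective
(`YTwAux.ps_inj` in P0c8ca5O.YTw, or directly: evaluate at elements with one component).
`exists_isoD`: `α : ↥(normalizer S) →* WG r (NQ R)`, `x ↦ ⟨fun q => qm R (x.left q) _, x.right⟩` is a homomorphism (`qm_mul`, P0c8ca5.Sect; `RegularWreathProduct.mul_left`), it is surjective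
(`qm_surj`), its kernel is `S` (`qm_eq_one_iff`: `α x = 1` iff `x.right = 1` and `x.left q ∈ R`).  `NQ S = ↥(normalizer S) ⧸ (S as a subgroup of it)`: `QuotientGroup.quotientKerEquivOfSurjective`,
or `QuotientGroup.lift` with bijectivity, or `exists_iso_of_ker` (P0c8ca5.Transport) with `K₀ = ↥(normalizer S)`, `α` and the quotient map.
-/

namespace Pool.Agent.Lib.P0c8ca5.Wr

open MonoidAlgebra

set_option linter.unusedSectionVars false

variable {r : ℕ} [Fact r.Prime] {G : Type*} [Group G]

namespace NQiAux

theorem ps_inj {R R' : Cp r → Subgroup G} (h : ps R = ps R') : R = R' := by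
  classical
  have key : ∀ {R R' : Cp r → Subgroup G}, ps R = ps R' → ∀ q, R q ≤ R' q := by
    intro R R' h q z hz
    have h1 : (⟨Function.update 1 q z, 1⟩ : WG r G) ∈ ps R := by
      refine ⟨rfl, fun s => ?_⟩
      change (Function.update (1 : Cp r → G) q z) s ∈ R s
      by_cases hr : s = q
      · subst hr
        rw [Function.update_self]
        exact hz
      · rw [Function.update_of_ne hr]
        exact (R s).one_mem
    rw [h] at h1
    have h2 := h1.2 q
    change (Function.update (1 : Cp r → G) q z) q ∈ R' q at h2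
    rwa [Function.update_self] at h2
  funext q
  exact le_antisymm (key h q) (key h.symm q)

end NQiAux

theorem mem_norm_diag {R : Subgroup G} {x : WG r G} :
    x ∈ Subgroup.normalizer ((ps fun _ : Cp r => R : Subgroup (WG r G)) : Set (WG r G)) ↔
      ∀ q, x.left q ∈ Subgroup.normalizer (R : Set G) := by
  rw [← cg_eq_self_iff, cg_ps]
  constructor
  · intro h q
    have h1 := congrFun (NQiAux.ps_inj h) q
    exact cg_eq_self_iff.1 h1
  · intro h
    congr 1
    funext q
    exact cg_eq_self_iff.2 (h q)

namespace NQiAux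

/-- the homomorphism -/
def al (R : Subgroup G) :
    ↥(Subgroup.normalizer ((ps fun _ : Cp r => R : Subgroup (WG r G)) : Set (WG r G))) →*
      WG r (NQ R) where
  toFun x := ⟨fun q => qm R (x.1.left q) (mem_norm_diag.1 x.2 q), x.1.right⟩
  map_one' := rfl
  map_mul' _ _ := rfl

theorem al_eq_one_iff {R : Subgroup G}
    {x : ↥(Subgroup.normalizer ((ps fun _ : Cp r => R : Subgroup (WG r G)) : Set (WG r G)))} :
    al R x = 1 ↔ x.1 ∈ (ps fun _ : Cp r => R : Subgroup (WG r G)) := by
  constructor
  · intro h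
    refine ⟨congrArg RegularWreathProduct.right h, fun q => ?_⟩
    have h1 := congrFun (congrArg RegularWreathProduct.left h) q
    exact qm_eq_one_iff.1 h1
  · rintro ⟨h1, h2⟩
    have h3 : (al R x).left = 1 := by
      funext q
      exact qm_eq_one_iff.2 (h2 q)
    exact RegularWreathProduct.ext h3 h1

theorem al_surj (R : Subgroup G) : Function.Surjective (al (r := r) R) := by
  intro w
  choose f hf hw using fun q => qm_surj (w.left q)
  refine ⟨⟨⟨f, w.right⟩, mem_norm_diag.2 hf⟩, ?_⟩
  refine RegularWreathProduct.ext ?_ rfl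
  funext q
  exact (hw q).symm

end NQiAux

open NQiAux

theorem exists_isoD (R : Subgroup G) :
    ∃ ψ : NQ (ps fun _ : Cp r => R) ≃* WG r (NQ R),
      ∀ (x : WG r G)
        (hx : x ∈ Subgroup.normalizer
          ((ps fun _ : Cp r => R : Subgroup (WG r G)) : Set (WG r G))),
        ψ (qm (ps fun _ : Cp r => R) x hx)
          = ⟨fun q => qm R (x.left q) (mem_norm_diag.1 hx q), x.right⟩ := by
  let S : Subgroup (WG r G) := ps fun _ : Cp r => R
  have hk : ∀ x ∈ S.subgroupOf (Subgroup.normalizer (S : Set (WG r G))), al R x = 1 := by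
    intro x hx
    exact al_eq_one_iff.2 (Subgroup.mem_subgroupOf.1 hx)
  let β : NQ S →* WG r (NQ R) := QuotientGroup.lift _ (al R) hk
  have hβ : Function.Bijective β := by
    constructor
    · rw [injective_iff_map_eq_one]
      intro w hw
      obtain ⟨x, rfl⟩ := QuotientGroup.mk_surjective w
      have h1 : al R x = 1 := hw
      exact (QuotientGroup.eq_one_iff x).2 (Subgroup.mem_subgroupOf.2 (al_eq_one_iff.1 h1))
    · intro w
      obtain ⟨x, hx⟩ := al_surj R w
      exact ⟨QuotientGroup.mk x, hx⟩
  exact ⟨MulEquiv.ofBijective β hβ, fun x hx => rfl⟩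

end Pool.Agent.Lib.P0c8ca5.Wr
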