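import Mathlib
import Pool.Agent.Lib.P0c8ca5A.NQi
import Pool.Agent.Lib.P0c8ca5O.SecW

/-!
# PrD (1.2 h): the image of b ⊗ ⋯ ⊗ b in the quotient by a diagonal subgroup

PROOF.  Write `S = ps fun _ => R` and `φ` for the isomorphism of the statement.  Compare coefficients at `y : WG r (NQ R)`; `y = ψ (qm S x hx)` for some `x` (`qm_surj`), that is
`y = ⟨fun q => qm R (x.left q) _, x.right⟩`, and `(tr φ (proj S (el r b))).coeff y = (proj S (el r b)).coeff (qm S x hx)` (`coeff_tr`, P0c8ca5.Transport).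
If `x.right = 1`: by `proj_el`, `coeff_tr_pt` (P0c8ca5O.SecW, with `ψ'` from `exists_secEquiv`) this is `∏ q, (proj R b).coeff (qm R (x.left q) _)`, and this is the coefficient of
`el r (proj R b)` at `y` (`coeff_el`, `tn_of`).  If `x.right ≠ 1`: `(proj S a).coeff (qm S x hx)` is a sum of coefficients of `a` at elements of `x * S` (`coeff_proj`, P0c8ca5.Sect), which have the same
right component as `x`, and `el r b` vanishes there (`el_suppIn`); the right side vanishes by `tn_not`.
-/

namespace Pool.Agent.Lib.P0c8ca5.Wr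

open MonoidAlgebra

set_option linter.unusedSectionVars false

variable {r : ℕ} [Fact r.Prime] {k : Type*} [Field k] {G : Type*} [Group G] [Fintype G]
  [Fintype (WG r G)]

theorem proj_diag {R : Subgroup G} (ψ : NQ (ps fun _ : Cp r => R) ≃* WG r (NQ R))
    (hψ : ∀ (x : WG r G)
      (hx : x ∈ Subgroup.normalizer ((ps fun _ : Cp r => R : Subgroup (WG r G)) : Set (WG r G))),
      ψ (qm (ps fun _ : Cp r => R) x hx)
        = ⟨fun q => qm R (x.left q) (mem_norm_diag.1 hx q), x.right⟩)
    (b : MonoidAlgebra k G) :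
    tr ((Subgroup.topEquiv.trans ψ).trans Subgroup.topEquiv.symm)
      (proj (ps fun _ : Cp r => R) (el r b)) = el r (proj R b) := by
  classical
  ext y
  obtain ⟨w, rfl⟩ := ψ.surjective y
  obtain ⟨x, hx, rfl⟩ := qm_surj w
  have hL : (tr ((Subgroup.topEquiv.trans ψ).trans Subgroup.topEquiv.symm)
      (proj (ps fun _ : Cp r => R) (el r b))).coeff (ψ (qm (ps fun _ : Cp r => R) x hx)) =
      (proj (ps fun _ : Cp r => R) (el r b)).coeff (qm (ps fun _ : Cp r => R) x hx) :=
    coeff_tr ((Subgroup.topEquiv.trans ψ).trans Subgroup.topEquiv.symm) _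
      ⟨qm (ps fun _ : Cp r => R) x hx, Subgroup.mem_top _⟩
  refine hL.trans ?_
  rw [coeff_el, hψ x hx]
  by_cases hr : x.right = 1
  · obtain ⟨ψ', hψ'⟩ := exists_secEquiv (fun _ : Cp r => R)
    rw [proj_el hψ' b, coeff_tr_pt hψ' _ hx hr (mem_norm_diag.1 hx)]
    exact (tn_of (f := fun _ : Cp r => ((proj R b).coeff : NQ R → k))
      (x := (⟨fun q => qm R (x.left q) (mem_norm_diag.1 hx q), x.right⟩ : WG r (NQ R))) hr).symm
  · refine Eq.trans ?_ (tn_not (f := fun _ : Cp r => ((proj R b).coeff : NQ R → k))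
      (x := (⟨fun q => qm R (x.left q) (mem_norm_diag.1 hx q), x.right⟩ : WG r (NQ R))) hr).symm
    rw [coeff_proj]
    refine Finset.sum_eq_zero fun z _ => ?_
    by_cases h2 : x⁻¹ * z ∈ ps fun _ : Cp r => R
    · rw [if_pos h2, coeff_el, tn_not]
      intro h3
      have h4 := (mem_ps.1 h2).1
      rw [RegularWreathProduct.mul_right, h3, mul_one, RegularWreathProduct.inv_right,
        inv_eq_one] at h4
      exact hr h4
    · rw [if_neg h2]

end Pool.Agent.Lib.P0c8ca5.Wr
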