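import Mathlib
import Pool.Agent.Lib.P0c8ca5A.LW
import Pool.Agent.Lib.P0c8ca5A.PrD
import Pool.Agent.Lib.P0c8ca5A.DzI

/-!
# DNd: blocks of defect zero of the normalizer quotient of a diagonal subgroup
-/

namespace Pool.Agent.Lib.P0c8ca5.Wr

open MonoidAlgebra

set_option linter.unusedSectionVars false

variable {p r : ℕ} [Fact p.Prime] [Fact r.Prime] {k : Type*} [Field k] [IsAlgClosed k] [CharP k p]

theorem proj_mem_top {A : Type*} [Group A] [Fintype A] {z : MonoidAlgebra k A}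
    (hz : z ∈ fixAlg k (⊤ : Subgroup A) ⊤) (R : Subgroup A) :
    proj R z ∈ fixAlg k (⊤ : Subgroup (NQ R)) ⊤ := by
  rw [mem_fixAlg]
  refine ⟨fun _ _ => Subgroup.mem_top _, ?_⟩
  have h := proj_invBy' (R := R) (mem_fixAlg.1 hz).2
  rwa [YTwAux.sec_top] at h

theorem dN_diag {G : Type*} [Group G] [Fintype G] [Fintype (WG r G)] (hpr : p ≠ r)
    {R : Subgroup G} (hR : IsPGroup p R) {b : MonoidAlgebra k G}
    (hb : b ∈ fixAlg k (⊤ : Subgroup G) ⊤) (hbb : b * b = b) :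
    dN p (ps fun _ : Cp r => R) (el r b) = fg r (dN p R b) := by
  obtain ⟨ψ, hψ⟩ := exists_isoD (r := r) R
  have h1 := proj_diag ψ hψ b
  have hf : Finite (WG r (NQ R)) := inferInstance
  unfold dN
  rw [← dzN_el hpr (proj_mem_top hb R)
    (proj_idem (mem_fixAlg.1 hb).2 hbb hR), ← h1, dzN_tr]

end Pool.Agent.Lib.P0c8ca5.Wr
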