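import Mathlib
import Pool.Agent.Lib.P0c8ca5A.Defs
import Pool.Agent.Lib.P0c8ca5O.YTw

/-!
# DNn (1.3 h): blocks of defect zero of a product

PROOF.  Write `S = ps t`.  `sec (bs r G) S = ⊤`: every element of `NQ S` is `qm S x hx` with `x ∈ N(S) ≤ bs r G` (`qm_surj`, `mem_sec`/`qm_mem_sec`).
Let `ψ` be the isomorphism of `exists_secEquiv` (P0c8ca5O.SecW) from `⊤` (for the group `∀ q, NQ (t q)`) to `sec (bs r G) S`.  `proj_el`: `proj S (el r b) = tr ψ (pt fun q => proj (t q) b)`.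
The map `φ ↦ tr ψ (pt φ)` is a bijection from the families `φ` with `IsDZ p ⊤ (φ q) ∧ φ q * proj (t q) b = φ q` to the set of the `f` with `IsDZ p ⊤ f ∧ f * proj S (el r b) = f`: exactly as in the
proof of `exists_equivYT` (P0c8ca5O.YTw, `mul_iff`, `prod_aux`, `surj_aux`): `isDZ_pt`, `exists_pt_of_isDZ` (PiD), `tr_isDZ`, `tr_mul`, `tr_tr_symm`, `pt_mul`, `pt_mul_eq_iff`, `pt_idem_inj` (PiA).
(`proj (t q) b` is idempotent: `proj_mul` in P0c8ca5.Sect, `t q` is a p-group and `b` is invariant.)  So `dN p S (el r b) = Nat.card (∀ q, {f // ..}) = ∏ q, dN p (t q) b` (`Nat.card_pi`).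
-/

namespace Pool.Agent.Lib.P0c8ca5.Wr

open MonoidAlgebra

set_option linter.unusedSectionVars false

variable {p r : ℕ} [Fact p.Prime] [Fact r.Prime] {k : Type*} [Field k] [IsAlgClosed k] [CharP k p]
  {G : Type*} [Group G] [Fintype G] [Fintype (WG r G)]

namespace DNnAux

theorem suppIn_top {A : Type*} [Group A] (a : MonoidAlgebra k A) :
    SuppIn (⊤ : Subgroup A) a := fun _ _ => Subgroup.mem_top _

theorem sec_bs {S : Subgroup (WG r G)}
    (hn : Subgroup.normalizer (S : Set (WG r G)) ≤ bs r G) : sec (bs r G) S = ⊤ := by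
  ext w
  obtain ⟨x, hx, rfl⟩ := qm_surj w
  exact ⟨fun _ => Subgroup.mem_top _, fun _ => qm_mem_sec _ (hn hx)⟩

theorem mul_iff {b : MonoidAlgebra k G} (hb : b ∈ fixAlg k (⊤ : Subgroup G) ⊤) (hbb : b * b = b)
    {R : Cp r → Subgroup G} (hR : ∀ q, IsPGroup p (R q))
    {ψ : ↥(⊤ : Subgroup (∀ q, NQ (R q))) ≃* ↥(sec (bs r G) (ps R))} (hψ : IsSE R ψ)
    {φ : ∀ q, MonoidAlgebra k (NQ (R q))} (hφ : ∀ q, φ q ≠ 0) :
    tr ψ (pt φ) * proj (ps R) (el r b) = tr ψ (pt φ) ↔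
      ∀ q, φ q * proj (R q) b = φ q := by
  have hc : ∀ q, proj (R q) b * proj (R q) b = proj (R q) b :=
    fun q => proj_idem (mem_fixAlg.1 hb).2 hbb (hR q)
  rw [proj_el hψ, ← tr_mul ψ (suppIn_top _) (suppIn_top _), ← pt_mul_eq_iff hφ hc]
  exact ⟨fun h => tr_injOn ψ (suppIn_top _) (suppIn_top _) h, fun h => by rw [h]⟩

end DNnAux

open DNnAux

theorem dN_prod {t : Cp r → Subgroup G} (ht : ∀ q, IsPGroup p (t q))
    (hn : Subgroup.normalizer ((ps t : Subgroup (WG r G)) : Set (WG r G)) ≤ bs r G)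
    {b : MonoidAlgebra k G} (hb : b ∈ fixAlg k (⊤ : Subgroup G) ⊤) (hbb : b * b = b) :
    dN p (ps t) (el r b) = ∏ q, dN p (t q) b := by
  obtain ⟨ψ, hψ⟩ := exists_secEquiv t
  have hsec := sec_bs hn
  have hdz : ∀ φ : ∀ q, MonoidAlgebra k (NQ (t q)), (∀ q, IsDZ p (⊤ : Subgroup (NQ (t q))) (φ q)) →
      IsDZ p (⊤ : Subgroup (NQ (ps t))) (tr ψ (pt φ)) := by
    intro φ hφ
    rw [← hsec]
    exact tr_isDZ ψ (isDZ_pt hφ)
  let Θ : (∀ q, ↥{f : MonoidAlgebra k (NQ (t q)) |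
      IsDZ p (⊤ : Subgroup (NQ (t q))) f ∧ f * proj (t q) b = f}) →
      ↥{f : MonoidAlgebra k (NQ (ps t)) |
        IsDZ p (⊤ : Subgroup (NQ (ps t))) f ∧ f * proj (ps t) (el r b) = f} :=
    fun φ => ⟨tr ψ (pt fun q => (φ q).1), hdz _ (fun q => (φ q).2.1),
      (mul_iff hb hbb ht hψ (fun q => (φ q).2.1.blk.ne_zero)).2 (fun q => (φ q).2.2)⟩
  have hΘ : Function.Bijective Θ := by
    constructor
    · intro φ φ' h
      have h1 : tr ψ (pt fun q => (φ q).1) = tr ψ (pt fun q => (φ' q).1) :=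
        congrArg Subtype.val h
      have h2 := tr_injOn ψ (suppIn_top _) (suppIn_top _) h1
      have h3 := pt_idem_inj h2 (fun q => (φ q).2.1.blk.idem) (fun q => (φ' q).2.1.blk.idem)
        (fun q => (φ' q).2.1.blk.ne_zero)
      funext q
      exact Subtype.ext (congrFun h3 q)
    · rintro ⟨F, hF, hFb⟩
      have hF' : IsDZ p (sec (bs r G) (ps t)) F := by
        rw [hsec]
        exact hF
      obtain ⟨φ, hφ, hφ2⟩ := exists_pt_of_isDZ (tr_isDZ ψ.symm hF')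
      have hF2 : F = tr ψ (pt φ) := by rw [← hφ2, tr_tr_symm ψ hF'.blk.suppIn]
      subst hF2
      have h1 : ∀ q, φ q * proj (t q) b = φ q :=
        (mul_iff hb hbb ht hψ (fun q => (hφ q).blk.ne_zero)).1 hFb
      exact ⟨fun q => ⟨φ q, hφ q, h1 q⟩, rfl⟩
  unfold dN dzN
  rw [← Nat.card_pi]
  exact (Nat.card_congr (Equiv.ofBijective Θ hΘ)).symm

end Pool.Agent.Lib.P0c8ca5.Wr
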