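import Mathlib
import Pool.Agent.Lib.P0c8ca5A.Defs
import Pool.Agent.Lib.P0c8ca5O.CntW

/-!
# SWb (1 h): the number of weights of a block as a sum over the p-subgroups

PROOF.  `sec ⊤ R = ⊤` (`YTwAux.sec_top` in P0c8ca5O.YTw, or `mem_sec`, `qm_surj`), so `dN p R c = Nat.card {f | IsDZ p (sec ⊤ R) f ∧ f * proj R c = f}` by definition.
`SW_add`: `card_dz_blocks` (P0c8ca5N.WSum) for each `R`, and `Finset.sum_comm`, `Finset.mul_sum`.
`SW_block`: let `T` be a transversal of `Theta p ⊤ ⊤ b` (`exists_transversal`); `gap_eq` (P0c8ca5N.Gap; see its use in `gap_fixed`, P0c8ca5V.GapM, with `G = H = ⊤`) gives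
`gap p ⊤ ⊤ b = lN b - ∑ Q ∈ T, Nat.card (DZ p ⊤ b Q)` (`lN b` is `Nat.card (Quotient (irrInvSetoid ⊤ ⊤ b))`), and `sum_DZ_eq` (P0c8ca5N.WSum) with `D = Pg p A`, `H = ⊤`
(`Subgroup.card_top`, `top_inf_eq`) gives `Nat.card A * ∑ Q ∈ T, .. = SW p b`.  Compare with `gap_lw` (P0c8ca5O.CntW): `∑ Q ∈ T, .. = wN p b`.
-/

namespace Pool.Agent.Lib.P0c8ca5.Wr

open MonoidAlgebra

set_option linter.unusedSectionVars false

variable {p : ℕ} [Fact p.Prime] {k : Type*} [Field k] [IsAlgClosed k] [CharP k p] {A : Type*}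
  [Group A] [Fintype A]

namespace SWbAux

theorem sec_top' {A : Type*} [Group A] (R : Subgroup A) : sec (⊤ : Subgroup A) R = ⊤ := by
  ext w
  obtain ⟨x, hx, rfl⟩ := qm_surj w
  exact ⟨fun _ => Subgroup.mem_top _, fun _ => qm_mem_sec _ (Subgroup.mem_top _)⟩

theorem dN_eq {A : Type*} [Group A] [Fintype A] {k : Type*} [Field k] (p : ℕ) (R : Subgroup A)
    (c : MonoidAlgebra k A) :
    dN p R c = Nat.card {f : MonoidAlgebra k (NQ R) | IsDZ p (sec (⊤ : Subgroup A) R) f ∧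
      f * proj R c = f} := by
  rw [sec_top']
  rfl

end SWbAux

open SWbAux

theorem SW_add {e : MonoidAlgebra k A} (he : e ∈ fixAlg k (⊤ : Subgroup A) ⊤) (hee : e * e = e)
    (Bl : Finset (MonoidAlgebra k A))
    (hBl : ∀ b, b ∈ Bl ↔ IsBlock (⊤ : Subgroup A) b ∧ b * e ≠ 0) :
    SW p e = ∑ b ∈ Bl, SW p b := by
  unfold SW
  rw [Finset.sum_comm]
  refine Finset.sum_congr rfl fun R hR => ?_
  rw [← Finset.mul_sum]
  congr 1
  rw [dN_eq, card_dz_blocks (mem_fixAlg.1 he).1 (mem_fixAlg.1 he).2 hee Bl hBl le_top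
    (mem_Pg.1 hR)]
  exact Finset.sum_congr rfl fun b _ => (dN_eq p R b).symm

theorem SW_block {b : MonoidAlgebra k A} (hb : IsBlock (⊤ : Subgroup A) b) :
    SW p b = Nat.card A * wN p b := by
  classical
  have hn : (⊤ : Subgroup A) ≤ Subgroup.normalizer ((⊤ : Subgroup A) : Set A) :=
    fun x _ => mem_norm_of_normal ⊤ x
  obtain ⟨T, hT1, hT2⟩ := exists_transversal (⊤ : Subgroup A)
    (Theta p (⊤ : Subgroup A) (⊤ : Subgroup A) b)
  have h1 := gap_eq (le_refl (⊤ : Subgroup A)) hn (fun x _ => ⟨0, Subgroup.mem_top _⟩) hb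
    hb.invBy T hT1 hT2
  have h2 := gap_lw (p := p) hb
  have h3 : wN p b = ∑ Q ∈ T, Nat.card (DZ p (⊤ : Subgroup A) b Q) := by
    have h4 : (wN p b : ℚ) = ((∑ Q ∈ T, Nat.card (DZ p (⊤ : Subgroup A) b Q) : ℕ) : ℚ) := by
      rw [h1] at h2
      unfold lN at h2
      linarith
    exact_mod_cast h4
  have h5 := sum_DZ_eq hb T hT1 hT2 (Pg p A) (fun R => by
    rw [mem_Pg]
    exact ⟨fun h => ⟨le_top, h⟩, fun h => h.2⟩)
  rw [h3, ← Subgroup.card_top (G := A), h5]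
  unfold SW
  refine Finset.sum_congr rfl fun R _ => ?_
  rw [dN_eq, top_inf_eq]
  rfl

end Pool.Agent.Lib.P0c8ca5.Wr
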