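import Mathlib
import Pool.Agent.Lib.P0c8ca5A.NQi
import Pool.Agent.Lib.P0c8ca5A.Defs
import Pool.Agent.Lib.P0c8ca5O.SecW

/-!
# NrC (1.2 h): orders of normalizers in the wreath product

PROOF.  `nN_diag`: `mem_norm_diag` (P0c8ca5A.NQi): the normalizer is in bijection with `(Cp r → ↥(normalizer R)) × Cp r`; `Nat.card_prod`, `Nat.card_fun`/`Nat.card_pi`, `Nat.card (Cp r) = r`
(`Nat.card_zmod`).  `nN_prod`: `mem_norm_ps` (P0c8ca5O.SecW): for `x.right = 1`, `x ∈ N(ps t)` iff `x.left q ∈ N(t q)` for all `q`; the normalizer is in bijection with `∀ q, ↥(normalizer (t q))`.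
`norm_le_or`: suppose `x ∈ N(ps t)` with `x.right = c ≠ 1`.  `cg x (ps t) = ps t` and `cg_ps` (P0c8ca5O.Act) with injectivity of `ps` (evaluate at elements with one component; `YTwAux.ps_inj`):
`t q = cg (x.left q) (t (c⁻¹ * q))` for all `q`.  So `t (c ^ j)` is conjugate to `t 1` for all `j : ℕ` (induction, `cg_cg`), and every element of `Cp r` is a power of `c` (`mem_powers_of_prime_card`).
-/

namespace Pool.Agent.Lib.P0c8ca5.Wr

open MonoidAlgebra

set_option linter.unusedSectionVars false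

variable {r : ℕ} [Fact r.Prime] {G : Type*} [Group G] [Finite G]

namespace NrCAux

theorem card_Cp : Nat.card (Cp r) = r := by
  rw [← Nat.card_congr (Multiplicative.ofAdd : ZMod r ≃ Cp r), Nat.card_zmod]

/-- the normalizer of a diagonal subgroup -/
def eD (R : Subgroup G) :
    ↥(Subgroup.normalizer ((ps fun _ : Cp r => R : Subgroup (WG r G)) : Set (WG r G))) ≃
      (Cp r → ↥(Subgroup.normalizer (R : Set G))) × Cp r where
  toFun x := (fun q => ⟨x.1.left q, mem_norm_diag.1 x.2 q⟩, x.1.right)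
  invFun y := ⟨⟨fun q => (y.1 q).1, y.2⟩, mem_norm_diag.2 fun q => (y.1 q).2⟩
  left_inv _ := rfl
  right_inv _ := rfl

/-- the normalizer of a product of subgroups, if it is contained in the base group -/
def eP {t : Cp r → Subgroup G}
    (hn : Subgroup.normalizer ((ps t : Subgroup (WG r G)) : Set (WG r G)) ≤ bs r G) :
    ↥(Subgroup.normalizer ((ps t : Subgroup (WG r G)) : Set (WG r G))) ≃
      ∀ q, ↥(Subgroup.normalizer ((t q : Subgroup G) : Set G)) where
  toFun x := fun q => ⟨x.1.left q, (mem_norm_ps (mem_bs.1 (hn x.2))).1 x.2 q⟩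
  invFun y := ⟨⟨fun q => (y q).1, 1⟩, (mem_norm_ps rfl).2 fun q => (y q).2⟩
  left_inv x := Subtype.ext (RegularWreathProduct.ext rfl (mem_bs.1 (hn x.2)).symm)
  right_inv _ := rfl

end NrCAux

open NrCAux

theorem nN_diag (R : Subgroup G) : nN (ps fun _ : Cp r => R) = r * nN R ^ r := by
  unfold nN
  rw [Nat.card_congr (eD R), Nat.card_prod, Nat.card_fun, card_Cp, mul_comm]

theorem nN_prod {t : Cp r → Subgroup G}
    (hn : Subgroup.normalizer ((ps t : Subgroup (WG r G)) : Set (WG r G)) ≤ bs r G) :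
    nN (ps t) = ∏ q, nN (t q) := by
  unfold nN
  rw [Nat.card_congr (eP hn), Nat.card_pi]

theorem norm_le_or (t : Cp r → Subgroup G) :
    Subgroup.normalizer ((ps t : Subgroup (WG r G)) : Set (WG r G)) ≤ bs r G ∨
      ∀ q, ∃ g : G, t q = cg g (t 1) := by
  by_cases h : Subgroup.normalizer ((ps t : Subgroup (WG r G)) : Set (WG r G)) ≤ bs r G
  · exact Or.inl h
  · right
    obtain ⟨x, hx, hx'⟩ := SetLike.not_le_iff_exists.1 h
    have hc : x.right ≠ 1 := fun h1 => hx' (mem_bs.2 h1)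
    have h1 : ps (fun q => cg (x.left q) (t (x.right⁻¹ * q))) = ps t := by
      rw [← cg_ps]
      exact cg_eq_self_iff.2 hx
    have h2 : ∀ q, cg (x.left q) (t (x.right⁻¹ * q)) = t q := fun q =>
      congrFun (NQiAux.ps_inj h1) q
    have h3 : ∀ j : ℕ, ∃ g : G, t (x.right ^ j) = cg g (t 1) := by
      intro j
      induction j with
      | zero => exact ⟨1, by rw [pow_zero, cg_one]⟩
      | succ j ih =>
        obtain ⟨g, hg⟩ := ih
        refine ⟨x.left (x.right ^ (j + 1)) * g, ?_⟩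
        rw [← cg_cg, ← hg, ← h2 (x.right ^ (j + 1)), pow_succ', inv_mul_cancel_left]
    intro q
    obtain ⟨j, hj⟩ := (Submonoid.mem_powers_iff _ _).1
      (mem_powers_of_prime_card (card_Cp (r := r)) hc (g' := q))
    rw [← hj]
    exact h3 j

end Pool.Agent.Lib.P0c8ca5.Wr
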