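import Mathlib
import Pool.Agent.Lib.P0c8ca5A.PrW
import Pool.Agent.Lib.P0c8ca5O.RadW

/-!
# RdX (1.2 h): radical subgroups of the wreath product

PROOF.  `S ≤ bs r G` (`pel_right`, P0c8ca5A.PrW: all elements of `S` are p-elements).  `dN p S c ≠ 0`: there is `f` with `IsDZ p ⊤ f` in `k[NQ S]`.  Let `t q` be the image of `S` under the `q`-th
coordinate and `T = ps t ≥ S` (see `RadWAux` in P0c8ca5O.RadW; all `t q` are p-groups, so `T` is a p-group: `isPGroup_ps` there is for `Cp p`; the same proof for `Cp r`: a product of p-groups).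
`N(S)` normalizes `T`: conjugation by `x` permutes and conjugates the coordinates (`cg_ps`, `conj_left`, P0c8ca5O.Act), so `cg x T` is attached to `cg x S` in the same way; if `cg x S = S` then
`cg x T = T`.  So `(T ⊓ N(S)) / S` is a normal p-subgroup of `NQ S`, and it is trivial because `NQ S` has a block of defect zero (the step used in P0c8ca5O.RadW: a normal p-subgroup is trivial if
there is a block of defect zero; P0c8ca5N.Rad `radical` or `exists_ps_of_isDZ`).  Hence `N_T(S) = S`; in a p-group (nilpotent, normalizer condition: `IsPGroup.isNilpotent`,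
`normalizerCondition_of_isNilpotent`, or as in RadW) this gives `S = T`.
-/

namespace Pool.Agent.Lib.P0c8ca5.Wr

open MonoidAlgebra

set_option linter.unusedSectionVars false

variable {p r : ℕ} [Fact p.Prime] [Fact r.Prime] {k : Type*} [Field k] [IsAlgClosed k] [CharP k p]
  {G : Type*} [Group G] [Fintype G] [Fintype (WG r G)]

theorem isPGroup_ps_r {t : Cp r → Subgroup G} (h : ∀ q, IsPGroup p (t q)) :
    IsPGroup p (ps t : Subgroup (WG r G)) := by
  rintro ⟨x, hx⟩
  have h1 : ∀ q, ∃ n : ℕ, (x.left q) ^ p ^ n = 1 := by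
    intro q
    obtain ⟨n, hn⟩ := h q ⟨x.left q, hx.2 q⟩
    exact ⟨n, congrArg Subtype.val hn⟩
  choose n hn using h1
  refine ⟨∑ q, n q, Subtype.ext ?_⟩
  change x ^ p ^ (∑ q, n q) = 1
  refine RegularWreathProduct.ext (funext fun q => ?_) (RadWAux.right_pow x hx.1 _)
  rw [RadWAux.left_pow x hx.1]
  have h2 : n q ≤ ∑ q, n q := Finset.single_le_sum (fun _ _ => Nat.zero_le _) (Finset.mem_univ q)
  obtain ⟨m, hm⟩ := Nat.exists_eq_add_of_le h2
  rw [hm, pow_add, pow_mul, hn, one_pow]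
  rfl

theorem exists_ps_of_dN (hpr : p ≠ r) {S : Subgroup (WG r G)} (hS : IsPGroup p S)
    {c : MonoidAlgebra k (WG r G)} (h : dN p S c ≠ 0) :
    ∃ t : Cp r → Subgroup G, (∀ q, IsPGroup p (t q)) ∧ S = ps t := by
  classical
  have hSb : S ≤ bs r G := by
    intro x hx
    rw [mem_bs]
    refine pel_right hpr ?_
    obtain ⟨n, hn⟩ := hS ⟨x, hx⟩
    exact ⟨n, congrArg Subtype.val hn⟩
  obtain ⟨f, hf, -⟩ : ∃ f : MonoidAlgebra k (NQ S), IsDZ p (⊤ : Subgroup (NQ S)) f ∧
      f * proj S c = f := by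
    by_contra hcon
    apply h
    have h0 : {f : MonoidAlgebra k (NQ S) | IsDZ p (⊤ : Subgroup (NQ S)) f ∧
        f * proj S c = f} = ∅ := Set.eq_empty_iff_forall_notMem.2 (fun f hf => hcon ⟨f, hf⟩)
    change Nat.card {f : MonoidAlgebra k (NQ S) | IsDZ p (⊤ : Subgroup (NQ S)) f ∧
        f * proj S c = f} = 0
    rw [h0]
    exact Nat.card_of_isEmpty
  have hsec : sec (Subgroup.normalizer (S : Set (WG r G))) S = ⊤ := by
    rw [eq_top_iff]
    intro w _
    obtain ⟨x, hx, rfl⟩ := qm_surj w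
    exact mem_sec.2 ⟨x, hx, hx, rfl⟩
  set t : Cp r → Subgroup G := fun q => (S.subgroupOf (bs r G)).map (RadWAux.ev r G q) with ht
  have hmem : ∀ q (y : G), y ∈ t q ↔ ∃ s ∈ S, s.left q = y := by
    intro q y
    constructor
    · rintro ⟨⟨s, hs⟩, hs', rfl⟩
      exact ⟨s, hs', rfl⟩
    · rintro ⟨s, hs, rfl⟩
      exact ⟨⟨s, hSb hs⟩, hs, rfl⟩
  have hSt : S ≤ ps t := fun x hx =>
    ⟨mem_bs.1 (hSb hx), fun q => (hmem q _).2 ⟨x, hx, rfl⟩⟩
  have hpt : ∀ q, IsPGroup p (t q) := fun q => IsPGroup.map (IsPGroup.comap_subtype hS) _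
  have hpT : IsPGroup p (ps t : Subgroup (WG r G)) := isPGroup_ps_r hpt
  refine ⟨t, hpt, ?_⟩
  by_contra hne
  obtain ⟨x, hx, hxN, hxS⟩ := exists_norm_growth hpT hSt hne
  have key : ∀ x ∈ Subgroup.normalizer (S : Set (WG r G)),
      ∀ y ∈ ps t ⊓ Subgroup.normalizer (S : Set (WG r G)),
      x⁻¹ * y * x ∈ ps t ⊓ Subgroup.normalizer (S : Set (WG r G)) := by
    rintro x hx y ⟨hy1, hy2⟩
    refine ⟨⟨(conj_right x y).trans hy1.1, fun q => ?_⟩, ?_⟩
    · obtain ⟨s, hs, hsq⟩ := (hmem (x.right * q) _).1 (hy1.2 (x.right * q))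
      rw [hmem]
      refine ⟨x⁻¹ * s * x, ?_, ?_⟩
      · have h1 := (Subgroup.mem_normalizer_iff.1 (Subgroup.inv_mem _ hx) s).1 hs
        rwa [inv_inv] at h1
      · rw [conj_left x s (mem_bs.1 (hSb hs)), conj_left x y hy1.1, hsq]
    · exact (Subgroup.normalizer (S : Set (WG r G))).mul_mem
        ((Subgroup.normalizer (S : Set (WG r G))).mul_mem
          ((Subgroup.normalizer (S : Set (WG r G))).inv_mem hx) hy2) hx
  have hQ : ps t ⊓ Subgroup.normalizer (S : Set (WG r G)) ≤ S := by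
    refine radical (H := Subgroup.normalizer (S : Set (WG r G))) (f := f)
      inf_le_right ?_ (hpT.to_le inf_le_left) Subgroup.le_normalizer hS ?_
    · intro x hx
      rw [Subgroup.mem_normalizer_iff]
      intro y
      constructor
      · intro h1
        have h2 := key x⁻¹ (Subgroup.inv_mem _ hx) _ h1
        rwa [inv_inv] at h2
      · intro h1
        have h2 := key x hx _ h1
        have e1 : x⁻¹ * (x * y * x⁻¹) * x = y := by group
        rwa [e1] at h2
    · rw [hsec]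
      exact hf
  exact hxS (hQ ⟨hx, hxN⟩)

end Pool.Agent.Lib.P0c8ca5.Wr
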