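import Mathlib
import Pool.Agent.Lib.P0c8ca5A.Defs
import Pool.Agent.Lib.P0c8ca5O.Ari

/-!
# Wsum (1.2 h): a weighted count

PROOF.  `fg_spec`: `ff_spec` (P0c8ca5O.Ari) and the definition of `fg` (`r ≥ 1`): `r * fg r x = x ^ r + (r ^ 2 - 1) * x` (in `ℤ`).  `wsum` (work in `ℤ` or in `ℕ` with `r * fg r x = x ^ r + (r ^ 2 - 1) * x`):
on the set `T` of the `t` with all `t q` equivalent to `t 1`: `F t = n (t 1) ^ r * (d (t 1) ^ r + (r ^ 2 - 1) * d (t 1)) = ∏ q, n (t q) * d (t q) + (r ^ 2 - 1) * n (t 1) ^ r * d (t 1)`.  So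
`∑ F = ∑_(all t) ∏ q, n (t q) * d (t q) + (r ^ 2 - 1) * ∑_(t ∈ T) n (t 1) ^ r * d (t 1)`.  The first sum is `(∑ x, n x * d x) ^ r = (g * w) ^ r` (`Finset.prod_univ_sum`, `Fintype.piFinset_univ`).
The second: for fixed `x = t 1` there are `(Nat.card {y // S x y}) ^ (r - 1)` functions `t ∈ T` (functions on `{q // q ≠ 1}` with values in the class), so it is
`∑ x, (card of the class) ^ (r - 1) * n x ^ r * d x = ∑ x, g ^ (r - 1) * n x * d x = g ^ (r - 1) * (g * w) = g ^ r * w`.  Total: `g ^ r * (w ^ r + (r ^ 2 - 1) * w) = g ^ r * (r * fg r w)`.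
-/

namespace Pool.Agent.Lib.P0c8ca5.Wr

open MonoidAlgebra

set_option linter.unusedSectionVars false



theorem fg_spec {r : ℕ} (hr : r.Prime) (x : ℕ) :
    (r : ℤ) * (fg r x : ℤ) = (x : ℤ) ^ r + ((r : ℤ) ^ 2 - 1) * x := by
  have h1 := ff_spec hr x
  have h2 : 1 ≤ r := hr.one_lt.le
  unfold fg
  push_cast [Nat.cast_sub h2]
  rw [mul_add, h1]
  ring

private theorem WsumAux.card_fun {r : ℕ} [Fact r.Prime] {P : Type*} [Fintype P] [DecidableEq P]
    (S : Setoid P) [DecidableRel S] (x : P) :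
    ∑ t : Cp r → P, (if t 1 = x ∧ ∀ q, S (t 1) (t q) then 1 else 0) =
      (Nat.card {y // S x y}) ^ (r - 1) := by
  classical
  have hc : Fintype.card (Cp r) = r := by
    rw [Fintype.card_multiplicative, ZMod.card]
  have h1 : ∀ t : Cp r → P, (if t 1 = x ∧ ∀ q, S (t 1) (t q) then 1 else 0) =
      ∏ q : Cp r, (if q = 1 then (if t q = x then 1 else 0) else (if S x (t q) then 1 else 0)) := by
    intro t
    by_cases ht : t 1 = x ∧ ∀ q, S (t 1) (t q)
    · rw [if_pos ht]
      symm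
      refine Finset.prod_eq_one fun q _ => ?_
      by_cases hq : q = 1
      · rw [if_pos hq, hq, if_pos ht.1]
      · rw [if_neg hq, if_pos]
        have := ht.2 q
        rwa [ht.1] at this
    · rw [if_neg ht]
      symm
      by_cases h1 : t 1 = x
      · have h2 : ¬ ∀ q, S (t 1) (t q) := fun h => ht ⟨h1, h⟩
        push Not at h2
        obtain ⟨q, hq⟩ := h2
        refine Finset.prod_eq_zero (Finset.mem_univ q) ?_
        have hq1 : q ≠ 1 := by
          rintro rfl
          exact hq (S.refl _)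
        rw [if_neg hq1, if_neg]
        rwa [h1] at hq
      · refine Finset.prod_eq_zero (Finset.mem_univ 1) ?_
        rw [if_pos rfl, if_neg h1]
  rw [Finset.sum_congr rfl fun t _ => h1 t]
  have h2 := Finset.prod_univ_sum (fun _ : Cp r => (Finset.univ : Finset P))
    (fun q y => (if q = 1 then (if y = x then 1 else 0) else (if S x y then 1 else 0) : ℕ))
  rw [Fintype.piFinset_univ] at h2
  rw [← h2, ← Finset.mul_prod_erase Finset.univ _ (Finset.mem_univ (1 : Cp r))]
  have h3 : ∑ y : P, (if (1 : Cp r) = 1 then (if y = x then 1 else 0)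
      else (if S x y then 1 else 0) : ℕ) = 1 := by
    simp
  rw [h3, one_mul]
  have h4 : ∀ q ∈ Finset.univ.erase (1 : Cp r), ∑ y : P, (if q = 1 then (if y = x then 1 else 0)
      else (if S x y then 1 else 0) : ℕ) = Nat.card {y // S x y} := by
    intro q hq
    rw [Finset.mem_erase] at hq
    rw [Finset.sum_congr rfl fun y _ => if_neg hq.1, Finset.sum_boole, Nat.card_eq_fintype_card,
      Fintype.card_subtype]
    rfl
  rw [Finset.prod_congr rfl h4, Finset.prod_const, Finset.card_erase_of_mem (Finset.mem_univ _),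
    Finset.card_univ, hc]

theorem wsum {r : ℕ} [Fact r.Prime] {P : Type*} [Fintype P] [DecidableEq P] (S : Setoid P)
    (n d : P → ℕ) (g w : ℕ) (hn : ∀ x, n x * Nat.card {y // S x y} = g)
    (hcn : ∀ x y, S x y → n x = n y) (hcd : ∀ x y, S x y → d x = d y)
    (hw : ∑ x, n x * d x = g * w) (F : (Cp r → P) → ℕ)
    (hF1 : ∀ t, (∀ q, S (t 1) (t q)) → F t = r * n (t 1) ^ r * fg r (d (t 1)))
    (hF2 : ∀ t, ¬ (∀ q, S (t 1) (t q)) → F t = ∏ q, (n (t q) * d (t q))) :
    ∑ t, F t = g ^ r * (r * fg r w) := by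
  classical
  have hr : r.Prime := Fact.out
  have hr1 : 1 ≤ r := hr.one_lt.le
  have hr2 : 1 ≤ r ^ 2 := Nat.one_le_pow _ _ hr1
  have hc : Fintype.card (Cp r) = r := by
    rw [Fintype.card_multiplicative, ZMod.card]
  have hfg : ∀ x : ℕ, r * fg r x = x ^ r + (r ^ 2 - 1) * x := by
    intro x
    have h := fg_spec hr x
    have : ((r * fg r x : ℕ) : ℤ) = ((x ^ r + (r ^ 2 - 1) * x : ℕ) : ℤ) := by
      push_cast [Nat.cast_sub hr2]
      exact h
    exact_mod_cast this
  have hF : ∀ t, F t = (∏ q, (n (t q) * d (t q))) +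
      (∑ x, (if t 1 = x ∧ ∀ q, S (t 1) (t q) then 1 else 0) * ((r ^ 2 - 1) * (n x ^ r * d x))) := by
    intro t
    by_cases ht : ∀ q, S (t 1) (t q)
    · rw [hF1 t ht]
      have h1 : ∏ q, (n (t q) * d (t q)) = (n (t 1) * d (t 1)) ^ r := by
        rw [Finset.prod_congr rfl fun q _ => by rw [← hcn _ _ (ht q), ← hcd _ _ (ht q)],
          Finset.prod_const, Finset.card_univ, hc]
      have h2 : ∑ x, (if t 1 = x ∧ ∀ q, S (t 1) (t q) then 1 else 0) *
          ((r ^ 2 - 1) * (n x ^ r * d x)) = (r ^ 2 - 1) * (n (t 1) ^ r * d (t 1)) := by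
        rw [Finset.sum_eq_single (t 1)]
        · rw [if_pos ⟨rfl, ht⟩, one_mul]
        · intro x _ hx
          rw [if_neg fun h => hx h.1.symm, zero_mul]
        · intro h
          exact absurd (Finset.mem_univ _) h
      rw [h1, h2]
      calc r * n (t 1) ^ r * fg r (d (t 1)) = n (t 1) ^ r * (r * fg r (d (t 1))) := by ring
        _ = _ := by rw [hfg, mul_pow]; ring
    · rw [hF2 t ht]
      have h2 : ∑ x, (if t 1 = x ∧ ∀ q, S (t 1) (t q) then 1 else 0) *
          ((r ^ 2 - 1) * (n x ^ r * d x)) = 0 := by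
        refine Finset.sum_eq_zero fun x _ => ?_
        rw [if_neg fun h => ht h.2, zero_mul]
      rw [h2, add_zero]
  rw [Finset.sum_congr rfl fun t _ => hF t, Finset.sum_add_distrib]
  have hA : ∑ t : Cp r → P, ∏ q, (n (t q) * d (t q)) = (g * w) ^ r := by
    have h2 := Finset.prod_univ_sum (fun _ : Cp r => (Finset.univ : Finset P))
      (fun _ y => n y * d y)
    rw [Fintype.piFinset_univ] at h2
    rw [← h2, Finset.prod_const, Finset.card_univ, hc, hw]
  have hB : ∑ t : Cp r → P, ∑ x, (if t 1 = x ∧ ∀ q, S (t 1) (t q) then 1 else 0) *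
      ((r ^ 2 - 1) * (n x ^ r * d x)) = (r ^ 2 - 1) * (g ^ r * w) := by
    rw [Finset.sum_comm]
    have h3 : ∀ x : P, ∑ t : Cp r → P, (if t 1 = x ∧ ∀ q, S (t 1) (t q) then 1 else 0) *
        ((r ^ 2 - 1) * (n x ^ r * d x)) = (r ^ 2 - 1) * (g ^ (r - 1) * (n x * d x)) := by
      intro x
      rw [← Finset.sum_mul, WsumAux.card_fun S x, ← hn x, mul_pow]
      obtain ⟨m, rfl⟩ : ∃ m, r = m + 1 := ⟨r - 1, by omega⟩
      rw [Nat.add_sub_cancel, pow_succ (n x) m]
      ring
    rw [Finset.sum_congr rfl fun x _ => h3 x, ← Finset.mul_sum, ← Finset.mul_sum, hw]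
    obtain ⟨m, rfl⟩ : ∃ m, r = m + 1 := ⟨r - 1, by omega⟩
    rw [Nat.add_sub_cancel, pow_succ g m]
    ring
  rw [hA, hB, hfg, mul_pow]
  ring

end Pool.Agent.Lib.P0c8ca5.Wr
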