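import Mathlib
import Pool.Agent.Lib.P0c8ca5A.DNd
import Pool.Agent.Lib.P0c8ca5A.DNc
import Pool.Agent.Lib.P0c8ca5A.DNn
import Pool.Agent.Lib.P0c8ca5A.NrC
import Pool.Agent.Lib.P0c8ca5A.RdX
import Pool.Agent.Lib.P0c8ca5A.Wsum

/-!
# SWe: the number of weights of `G ≀ C_r`
-/

namespace Pool.Agent.Lib.P0c8ca5.Wr

open MonoidAlgebra

set_option linter.unusedSectionVars false

variable {p r : ℕ} [Fact p.Prime] [Fact r.Prime] {k : Type*} [Field k] [IsAlgClosed k] [CharP k p]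

/-- conjugacy of p-subgroups -/
def cjS (p : ℕ) (G : Type*) [Group G] : Setoid {R : Subgroup G // IsPGroup p R} where
  r R R' := ∃ g : G, R'.1 = cg g R.1
  iseqv :=
    { refl := fun R => ⟨1, (cg_one R.1).symm⟩
      symm := fun {R R'} ⟨g, h⟩ => ⟨g⁻¹, by rw [h, cg_cg, inv_mul_cancel, cg_one]⟩
      trans := fun {R R' R''} ⟨g, h⟩ ⟨g', h'⟩ => ⟨g' * g, by rw [h', h, cg_cg]⟩ }

theorem card_WG {G : Type*} [Group G] [Finite G] :
    Nat.card (WG r G) = Nat.card G ^ r * r := by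
  have e1 : Nat.card (WG r G) = Nat.card ((Cp r → G) × Cp r) :=
    Nat.card_congr (RegularWreathProduct.equivProd G (Cp r))
  rw [e1, Nat.card_prod, Nat.card_fun]
  have e2 : Nat.card (Cp r) = r := by
    rw [Nat.card_congr Multiplicative.toAdd, Nat.card_zmod]
  rw [e2]

theorem class_card {G : Type*} [Group G] [Finite G] (x : {R : Subgroup G // IsPGroup p R}) :
    nN x.1 * Nat.card {y // (cjS p G) x y} = Nat.card G := by
  classical
  have _ : Fintype G := Fintype.ofFinite G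
  let S : Finset (Subgroup G) := (Set.toFinite {Q : Subgroup G | ∃ g : G, Q = cg g x.1}).toFinset
  have hS : ∀ Q, Q ∈ S ↔ ∃ g ∈ (⊤ : Subgroup G), Q = cg g x.1 := by
    intro Q
    rw [Set.Finite.mem_toFinset]
    exact ⟨fun ⟨g, h⟩ => ⟨g, Subgroup.mem_top g, h⟩, fun ⟨g, _, h⟩ => ⟨g, h⟩⟩
  have h1 := sum_class ⊤ x.1 S hS
  have h2 : ∀ Q ∈ S, Nat.card ↥((⊤ : Subgroup G) ⊓ Subgroup.normalizer (Q : Set G)) = nN x.1 := by
    intro Q hQ
    obtain ⟨g, -, rfl⟩ := (hS Q).1 hQ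
    rw [top_inf_eq, ← nN_cg g x.1]
    rfl
  rw [Finset.sum_congr rfl h2, Finset.sum_const, smul_eq_mul, Subgroup.card_top] at h1
  rw [← h1, mul_comm]
  congr 1
  have hS' : ∀ Q, Q ∈ S ↔ ∃ g : G, Q = cg g x.1 := by
    intro Q
    rw [hS]
    exact ⟨fun ⟨g, _, h⟩ => ⟨g, h⟩, fun ⟨g, h⟩ => ⟨g, Subgroup.mem_top g, h⟩⟩
  have hQ : ∀ Q : S, IsPGroup p Q.1 := by
    rintro ⟨Q, hQ⟩
    obtain ⟨g, rfl⟩ := (hS' Q).1 hQ
    exact isPGroup_cg x.2
  rw [← Nat.card_eq_finsetCard]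
  exact Nat.card_congr
    { toFun := fun y => ⟨y.1.1, (hS' _).2 y.2⟩
      invFun := fun Q => ⟨⟨Q.1, hQ Q⟩, (hS' _).1 Q.2⟩
      left_inv := fun _ => rfl
      right_inv := fun _ => rfl }

theorem ps_conj {G : Type*} [Group G] {R : Subgroup G} {t : Cp r → Subgroup G} {g : Cp r → G}
    (h : ∀ q, t q = cg (g q) R) : ps t = cg (⟨g, 1⟩ : WG r G) (ps fun _ => R) := by
  rw [cg_ps]
  congr 1
  funext q
  exact h q

theorem SW_el {G : Type*} [Group G] [Fintype G] [Fintype (WG r G)] (hpr : p ≠ r)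
    {b : MonoidAlgebra k G} (hb : b ∈ fixAlg k (⊤ : Subgroup G) ⊤) (hbb : b * b = b) {w : ℕ}
    (hw : SW p b = Nat.card G * w) :
    SW p (el r b) = Nat.card (WG r G) * fg r w := by
  classical
  have _ : Fintype {R : Subgroup G // IsPGroup p R} := Fintype.ofFinite _
  have hinv : InvBy (⊤ : Subgroup G) b := (mem_fixAlg.1 hb).2
  have hX : InvBy (⊤ : Subgroup (WG r G)) (el r b) := el_invBy hinv
  let F : (Cp r → {R : Subgroup G // IsPGroup p R}) → ℕ := fun t =>
    nN (ps fun q => (t q).1) * dN p (ps fun q => (t q).1) (el r b)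
  have h1 : ∑ t, F t = SW p (el r b) := by
    unfold SW
    refine Finset.sum_of_injOn (fun t => ps fun q => (t q).1) ?_ ?_ ?_ (fun _ _ => rfl)
    · intro t _ t' _ h
      funext q
      exact Subtype.ext (congrFun (YTwAux.ps_inj h) q)
    · intro t _
      exact mem_Pg.2 (isPGroup_ps_r fun q => (t q).2)
    · intro S hS hn
      by_contra hne
      have h2 : dN p S (el r b) ≠ 0 := right_ne_zero_of_mul hne
      obtain ⟨t, ht, rfl⟩ := exists_ps_of_dN hpr (mem_Pg.1 hS) h2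
      exact hn ⟨fun q => ⟨t q, ht q⟩, Finset.mem_univ _, rfl⟩
  have h2 : ∑ x : {R : Subgroup G // IsPGroup p R}, nN x.1 * dN p x.1 b = Nat.card G * w := by
    rw [← hw]
    unfold SW
    refine Finset.sum_of_injOn (fun x => x.1) (fun x _ y _ h => Subtype.ext h) ?_ ?_
      (fun _ _ => rfl)
    · intro x _
      exact mem_Pg.2 x.2
    · intro S hS hn
      exact absurd ⟨⟨S, mem_Pg.1 hS⟩, Finset.mem_univ _, rfl⟩ hn
  have h3 := wsum (r := r) (cjS p G) (fun x => nN x.1) (fun x => dN p x.1 b) (Nat.card G) w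
    class_card
    (by
      rintro x y ⟨g, h⟩
      rw [h, nN_cg])
    (by
      rintro x y ⟨g, h⟩
      rw [h, dN_cg hinv])
    h2 F
    (by
      intro t ht
      have h4 : ∀ q, ∃ g : G, (t q).1 = cg g (t 1).1 := fun q => ht q
      choose g hg using h4
      change nN (ps fun q => (t q).1) * dN p (ps fun q => (t q).1) (el r b) = _
      rw [ps_conj (g := g) hg, nN_cg, dN_cg hX, nN_diag, dN_diag hpr (t 1).2 hb hbb])
    (by
      intro t ht
      have h4 : Subgroup.normalizer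
          ((ps (fun q => (t q).1) : Subgroup (WG r G)) : Set (WG r G)) ≤ bs r G := by
        rcases norm_le_or (fun q => (t q).1) with h | h
        · exact h
        · exact absurd (fun q => h q) ht
      change nN (ps fun q => (t q).1) * dN p (ps fun q => (t q).1) (el r b) = _
      rw [nN_prod h4, dN_prod (fun q => (t q).2) h4 hb hbb, ← Finset.prod_mul_distrib])
  rw [← h1, h3, card_WG, mul_assoc]

end Pool.Agent.Lib.P0c8ca5.Wr
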