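import Mathlib
import Pool.Agent.Lib.P0c8ca5A.SWe
import Pool.Agent.Lib.P0c8ca5A.SWb

/-!
# The amplification modulo any prime `r ≠ p`, and modulo any integer `m ≥ 2`
-/

namespace Pool.Agent.Lib.P0c8ca5

open MonoidAlgebra

set_option linter.unusedSectionVars false

universe u v

namespace Wr

theorem arith_step {r : ℕ} (hr : r.Prime) {j l w : ℕ} (hj : 1 ≤ j)
    (h1 : (r : ℤ) ^ j ∣ (l : ℤ) - w) (h2 : (r : ℤ) ^ j ∣ (fg r l : ℤ) - fg r w) :
    (r : ℤ) ^ (j + 1) ∣ (l : ℤ) - w := by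
  have h0 : (r : ℤ) ∣ (l : ℤ) - w := by
    refine dvd_trans ?_ h1
    exact dvd_pow_self _ (by omega)
  have h3 : (r : ℤ) ^ (j + 1) ∣ (l : ℤ) ^ r - (w : ℤ) ^ r := by
    rw [← geom_sum₂_mul, pow_succ, mul_comm]
    exact mul_dvd_mul (dvd_geom_sum₂_self (n := r) (x := (l : ℤ)) (y := (w : ℤ)) h0) h1
  have h4 : (r : ℤ) ^ (j + 1) ∣ (r : ℤ) * ((fg r l : ℤ) - fg r w) := by
    rw [pow_succ, mul_comm]
    exact mul_dvd_mul_left _ h2
  have e : (r : ℤ) * ((fg r l : ℤ) - fg r w) =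
      ((l : ℤ) ^ r - (w : ℤ) ^ r) + ((r : ℤ) ^ 2 - 1) * ((l : ℤ) - w) := by
    rw [mul_sub, fg_spec hr, fg_spec hr]
    ring
  rw [e] at h4
  have h5 : (r : ℤ) ^ (j + 1) ∣ ((r : ℤ) ^ 2 - 1) * ((l : ℤ) - w) := (dvd_add_right h3).1 h4
  have h6 : IsCoprime ((r : ℤ) ^ (j + 1)) ((r : ℤ) ^ 2 - 1) := by
    refine IsCoprime.pow_left ⟨r, -1, ?_⟩
    ring
  exact h6.dvd_of_dvd_mul_left h5

section
variable {p r : ℕ} [Fact p.Prime] [Fact r.Prime] {k : Type*} [Field k] [IsAlgClosed k] [CharP k p]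

/-- the blocks of `G ≀ C_r` over `b ⊗ ⋯ ⊗ b` -/
theorem step_r (hpr : p ≠ r) {G : Type*} [Group G] [Finite G] {b : MonoidAlgebra k G}
    (hb : IsBlock (⊤ : Subgroup G) b) :
    ∃ Bl : Finset (MonoidAlgebra k (WG r G)),
      (∀ c ∈ Bl, IsBlock (⊤ : Subgroup (WG r G)) c) ∧
        ∑ c ∈ Bl, lN c = fg r (lN b) ∧ ∑ c ∈ Bl, wN p c = fg r (wN p b) := by
  classical
  have _ : Fintype G := Fintype.ofFinite G
  have _ : Fintype (WG r G) := Fintype.ofFinite _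
  have hfin : {c : MonoidAlgebra k (WG r G) | IsBlock (⊤ : Subgroup (WG r G)) c ∧
      c * el r b ≠ 0}.Finite :=
    (finite_isBlock (k := k) (⊤ : Subgroup (WG r G))).subset (fun c hc => hc.1)
  have hBl : ∀ c, c ∈ hfin.toFinset ↔ IsBlock (⊤ : Subgroup (WG r G)) c ∧ c * el r b ≠ 0 := by
    intro c
    rw [Set.Finite.mem_toFinset]
    rfl
  have hmem := el_mem (r := r) hb.mem
  have hee : el r b * el r b = el r b := by rw [el_mul, hb.idem]
  refine ⟨hfin.toFinset, fun c hc => ((hBl c).1 hc).1, ?_, ?_⟩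
  · rw [← lN_add p hmem hee _ hBl, lN_el hpr hb.mem hb.idem]
  · have h1 := SW_el hpr hb.mem hb.idem (SW_block (p := p) hb)
    rw [SW_add hmem hee _ hBl, Finset.sum_congr rfl (fun c hc => SW_block (p := p)
      ((hBl c).1 hc).1), ← Finset.mul_sum] at h1
    exact Nat.eq_of_mul_eq_mul_left Nat.card_pos h1

end

/-- BAW modulo `r` for all blocks gives BAW modulo all powers of `r` -/
theorem pow_dvd {p r : ℕ} [Fact p.Prime] [Fact r.Prime] {k : Type v} [Field k] [IsAlgClosed k]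
    [CharP k p] (hpr : p ≠ r)
    (h : ∀ (G : Type u) [Group G] [Finite G] (b : MonoidAlgebra k G), IsBlock (⊤ : Subgroup G) b →
      (r : ℤ) ∣ (lN b : ℤ) - (wN p b : ℤ)) (j : ℕ) :
    ∀ (G : Type u) [Group G] [Finite G] (b : MonoidAlgebra k G), IsBlock (⊤ : Subgroup G) b →
      (r : ℤ) ^ (j + 1) ∣ (lN b : ℤ) - (wN p b : ℤ) := by
  induction j with
  | zero =>
    intro G _ _ b hb
    rw [zero_add, pow_one]
    exact h G b hb
  | succ j ih =>
    intro G _ _ b hb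
    obtain ⟨Bl, hBl, h1, h2⟩ := step_r (r := r) hpr hb
    refine arith_step (Fact.out : r.Prime) (by omega) (ih G b hb) ?_
    rw [← h1, ← h2, Nat.cast_sum, Nat.cast_sum, ← Finset.sum_sub_distrib]
    exact Finset.dvd_sum fun c hc => ih (WG r G) c (hBl c hc)

end Wr

open Wr in
/-- BAW modulo one integer `m ≥ 2` for all blocks of all finite groups gives BAW. -/
theorem amp_mod {p : ℕ} [Fact p.Prime] {k : Type v} [Field k] [IsAlgClosed k] [CharP k p] {m : ℕ}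
    (hm : 2 ≤ m)
    (h : ∀ (G : Type u) [Group G] [Finite G] (b : MonoidAlgebra k G), IsBlock (⊤ : Subgroup G) b →
      ∃ t : ℤ, gap p (⊤ : Subgroup G) ⊤ b = (m : ℚ) * t) :
    ∀ (G : Type u) [Group G] [Finite G] (b : MonoidAlgebra k G), IsBlock (⊤ : Subgroup G) b →
      gap p (⊤ : Subgroup G) ⊤ b = 0 := by
  obtain ⟨r, hr, hrm⟩ := Nat.exists_prime_and_dvd (show m ≠ 1 by omega)
  have hrp : Fact r.Prime := ⟨hr⟩
  by_cases hpr : p = r
  · subst hpr
    refine amp fun G _ _ b hb => ?_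
    obtain ⟨t, ht⟩ := h G b hb
    obtain ⟨s, rfl⟩ := hrm
    exact ⟨s * t, by rw [ht]; push_cast; ring⟩
  · intro G _ _ b hb
    have h1 : ∀ (G : Type u) [Group G] [Finite G] (b : MonoidAlgebra k G),
        IsBlock (⊤ : Subgroup G) b → (r : ℤ) ∣ (lN b : ℤ) - (wN p b : ℤ) := by
      intro G _ _ b hb
      haveI : Fintype G := Fintype.ofFinite G
      obtain ⟨t, ht⟩ := h G b hb
      rw [gap_lw hb] at ht
      have h2 : (lN b : ℤ) - (wN p b : ℤ) = m * t := by exact_mod_cast ht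
      rw [h2]
      exact Dvd.dvd.mul_right (by exact_mod_cast hrm) t
    haveI : Fintype G := Fintype.ofFinite G
    have key : (lN b : ℤ) - (wN p b : ℤ) = 0 := by
      set x : ℤ := (lN b : ℤ) - (wN p b : ℤ) with hx
      have h3 : (r : ℤ) ^ (x.natAbs + 1) ∣ x := pow_dvd hpr h1 x.natAbs G b hb
      refine Int.eq_zero_of_abs_lt_dvd h3 ?_
      have h4 : x.natAbs < r ^ (x.natAbs + 1) :=
        lt_trans (Nat.lt_pow_self hr.one_lt) (Nat.pow_lt_pow_right hr.one_lt (Nat.lt_succ_self _))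
      rw [Int.abs_eq_natAbs x]
      exact_mod_cast h4
    rw [gap_lw hb]
    have h5 : (lN b : ℤ) = (wN p b : ℤ) := sub_eq_zero.1 key
    have h6 : (lN b : ℚ) = (wN p b : ℚ) := by exact_mod_cast h5
    rw [h6, sub_self]

end Pool.Agent.Lib.P0c8ca5
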